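import Mathlib
set_option autoImplicit false

/-!
# Constants
-/

namespace Pool.Agent.H80.RE

open Finset Real Filter Topology

theorem poly_exp (p : ℕ) {r R : ℝ} (hr : 0 < r) (hrR : r < R) :
    ∃ C : ℝ, 0 < C ∧ ∀ n : ℕ, ((n : ℝ) + 1) ^ p * r ^ n ≤ C * R ^ n := by
  have hR : 0 < R := hr.trans hrR
  have h1 : |r / R| < 1 := by
    rw [abs_of_pos (by positivity), div_lt_one hR]; exact hrR
  have h2 := tendsto_pow_const_mul_const_pow_of_abs_lt_one p h1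
  have h3 := h2.bddAbove_range
  obtain ⟨B, hB⟩ := h3
  have hB' : ∀ n : ℕ, (n : ℝ) ^ p * (r / R) ^ n ≤ B := fun n => hB ⟨n, rfl⟩
  refine ⟨(|B| + 1) * (R / r), by positivity, fun n => ?_⟩
  have h4 := hB' (n + 1)
  push_cast at h4
  have h5 : ((n : ℝ) + 1) ^ p * (r / R) ^ (n + 1) ≤ |B| + 1 := by
    have := le_abs_self B
    linarith
  have h6 : ((n : ℝ) + 1) ^ p * r ^ n = ((n : ℝ) + 1) ^ p * (r / R) ^ (n + 1) * ((R / r) * R ^ n) := by
    rw [pow_succ, div_pow]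
    field_simp
  rw [h6]
  have := mul_le_mul_of_nonneg_right h5 (by positivity : 0 ≤ (R / r) * R ^ n)
  linarith

theorem params {η : ℝ} (hη : 0 < η) : ∃ k0 : ℕ, 9 ≤ k0 ∧ ∃ τ : ℝ, 3 ≤ τ ∧ (1 / (k0 : ℝ)) * τ ≤ 1 ∧
    (1 + 1 / (k0 : ℝ)) * log 2 * (1 / (k0 : ℝ)) * τ ^ 2 ≤ η ∧
    (1 + 1 / (k0 : ℝ)) * log 2 / (1 / (k0 : ℝ)) * exp (-τ) ≤ η := by
  have h1 : |exp (-1)| < 1 := by
    rw [abs_of_pos (exp_pos _)]
    rw [← Real.exp_zero]
    exact Real.exp_lt_exp.2 (by norm_num)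
  have h2 := tendsto_pow_const_mul_const_pow_of_abs_lt_one 4 h1
  have h3 : ∀ᶠ m : ℕ in atTop, (m : ℝ) ^ 4 * exp (-1) ^ m < η / 2 :=
    h2.eventually_lt_const (by positivity)
  have h4 : Tendsto (fun m : ℕ => (1 : ℝ) / (m : ℝ)) atTop (𝓝 0) :=
    tendsto_one_div_atTop_nhds_zero_nat
  have h5 : ∀ᶠ m : ℕ in atTop, (1 : ℝ) / (m : ℝ) < η / 2 := h4.eventually_lt_const (by positivity)
  obtain ⟨m, h6, h7, h8⟩ := (h3.and (h5.and (eventually_ge_atTop 3))).exists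
  have hm : (3 : ℝ) ≤ m := by exact_mod_cast h8
  have hm0 : (0 : ℝ) < m := by linarith
  have hl2 : log 2 ≤ 1 := by
    have := Real.log_two_lt_d9
    linarith
  have hl20 : 0 < log 2 := Real.log_pos (by norm_num)
  have hk : (9 : ℝ) ≤ (m : ℝ) ^ 4 := by
    have : (3 : ℝ) ^ 4 ≤ (m : ℝ) ^ 4 := pow_le_pow_left₀ (by norm_num) hm 4
    linarith
  have hk1 : 1 + 1 / (m : ℝ) ^ 4 ≤ 2 := by
    have : 1 / (m : ℝ) ^ 4 ≤ 1 := by
      rw [div_le_one (by positivity)]; linarith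
    linarith
  have hc : (1 + 1 / (m : ℝ) ^ 4) * log 2 ≤ 2 := by nlinarith
  refine ⟨m ^ 4, by exact_mod_cast hk, m, hm, ?_, ?_, ?_⟩
  · push_cast
    rw [div_mul_eq_mul_div, div_le_one (by positivity), one_mul]
    calc (m : ℝ) = m ^ 1 := by ring
      _ ≤ m ^ 4 := pow_le_pow_right₀ (by linarith) (by norm_num)
  · push_cast
    have e : (1 / (m : ℝ) ^ 4) * (m : ℝ) ^ 2 ≤ 1 / m := by
      rw [div_mul_eq_mul_div, div_le_div_iff₀ (by positivity) hm0]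
      have : (m : ℝ) ^ 3 ≤ m ^ 4 := pow_le_pow_right₀ (by linarith) (by norm_num)
      nlinarith
    have e0 : 0 ≤ (1 / (m : ℝ) ^ 4) * (m : ℝ) ^ 2 := by positivity
    calc (1 + 1 / (m : ℝ) ^ 4) * log 2 * (1 / (m : ℝ) ^ 4) * (m : ℝ) ^ 2
        = ((1 + 1 / (m : ℝ) ^ 4) * log 2) * ((1 / (m : ℝ) ^ 4) * (m : ℝ) ^ 2) := by ring
      _ ≤ 2 * (1 / (m : ℝ)) := mul_le_mul hc e e0 (by norm_num)
      _ ≤ η := by linarith
  · push_cast
    have e : exp (-(m : ℝ)) = exp (-1) ^ m := by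
      rw [← Real.exp_nat_mul]; congr 1; ring
    rw [e]
    calc (1 + 1 / (m : ℝ) ^ 4) * log 2 / (1 / (m : ℝ) ^ 4) * exp (-1) ^ m
        = ((1 + 1 / (m : ℝ) ^ 4) * log 2) * ((m : ℝ) ^ 4 * exp (-1) ^ m) := by
          field_simp
      _ ≤ 2 * (η / 2) := mul_le_mul hc h6.le (by positivity) (by norm_num)
      _ = η := by ring

/-- the recursion -/
theorem recur {a : ℕ → ℝ} {D E : ℝ} (hD : 1 ≤ D) (hE : 0 ≤ E) (h0 : a 0 = 0) (M : ℕ)
    (h : ∀ c, c < M → a (c + 1) ≤ D * a c + E) : a M ≤ M * D ^ M * E := by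
  have key : ∀ c, c ≤ M → a c ≤ c * D ^ c * E := by
    intro c
    induction c with
    | zero => intro _; simp [h0]
    | succ c ih =>
      intro hc
      have h1 := ih (by omega)
      have h2 := h c (by omega)
      have h3 := mul_le_mul_of_nonneg_left h1 (by linarith : 0 ≤ D)
      have h4 : E ≤ D ^ (c + 1) * E := by
        have := one_le_pow₀ hD (n := c + 1)
        nlinarith
      push_cast
      calc a (c + 1) ≤ D * a c + E := h2
        _ ≤ D * (c * D ^ c * E) + D ^ (c + 1) * E := by linarith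
        _ = (c + 1) * D ^ (c + 1) * E := by ring
  exact key M le_rfl

end Pool.Agent.H80.RE
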