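import Pool.Agent.H80.RE.Scal
set_option autoImplicit false

/-!
# Almost invariant distributions are spread out
-/

namespace Pool.Agent.H80.RE

open Finset Real

variable {n : ℕ}

/-- the involution `v ↦ flip v i` -/
def flipEquiv (i : Fin n) : (Fin n → Bool) ≃ (Fin n → Bool) where
  toFun v := flip v i
  invFun v := flip v i
  left_inv v := flip_flip v i
  right_inv v := flip_flip v i

theorem reindex {f : (Fin n → Bool) → ℝ} (hf : Function.Injective f)
    (H : (Fin n → Bool) → Fin n → ℝ) :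
    ∑ v, ∑ i ∈ (improving f v)ᶜ, H v i = ∑ v, ∑ i ∈ improving f v, H (flip v i) i := by
  classical
  have h1 : ∀ v, ∑ i ∈ (improving f v)ᶜ, H v i = ∑ i, if i ∉ improving f v then H v i else 0 := by
    intro v
    rw [← sum_filter]
    refine sum_congr ?_ fun _ _ => rfl
    ext i; simp
  have h2 : ∀ v, ∑ i ∈ improving f v, H (flip v i) i =
      ∑ i, if i ∈ improving f v then H (flip v i) i else 0 := by
    intro v
    rw [← sum_filter]
    refine sum_congr ?_ fun _ _ => rfl
    ext i; simp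
  simp only [h1, h2]
  rw [sum_comm, sum_comm (f := fun v i => if i ∈ improving f v then H (flip v i) i else 0)]
  refine sum_congr rfl fun i _ => ?_
  rw [← (flipEquiv i).sum_comp]
  refine sum_congr rfl fun v _ => ?_
  show (if i ∉ improving f (flip v i) then H (flip v i) i else 0) = _
  simp only [mem_improving_flip hf, not_not]

/-- the directed form of the edge isoperimetric inequality -/
theorem edge_entropy' {f : (Fin n → Bool) → ℝ} (hf : Function.Injective f)
    (g : (Fin n → Bool) → ℝ) (hg : ∀ v, 0 ≤ g v) :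
    ∑ v, ∑ i ∈ improving f v, e2 (g v) (g (flip v i)) ≤
      ∑ v, negMulLog (g v) - negMulLog (∑ v, g v) := by
  have h := edge_entropy n g hg
  have h1 : ∑ v, ∑ i, e2 (g v) (g (flip v i)) =
      ∑ v, ∑ i ∈ improving f v, e2 (g v) (g (flip v i)) +
      ∑ v, ∑ i ∈ (improving f v)ᶜ, e2 (g v) (g (flip v i)) := by
    rw [← sum_add_distrib]
    refine sum_congr rfl fun v _ => ?_
    rw [sum_add_sum_compl]
  have h2 : ∑ v, ∑ i ∈ (improving f v)ᶜ, e2 (g v) (g (flip v i)) =
      ∑ v, ∑ i ∈ improving f v, e2 (g v) (g (flip v i)) := by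
    rw [reindex hf (fun v i => e2 (g v) (g (flip v i)))]
    refine sum_congr rfl fun v _ => sum_congr rfl fun i _ => ?_
    simp only [flip_flip]
    exact e2_comm _ _
  linarith

/-- Gibbs' inequality -/
theorem gibbs (ν : (Fin n → Bool) → ℝ) (h0 : ∀ v, 0 ≤ ν v) (h1 : ∑ v, ν v ≤ 1) {s : ℝ}
    (hs : 0 < s) (hQ : 0 < ∑ v, ν v ^ (1 + s)) :
    (∑ v, ν v ^ (1 + s)) * log (∑ v, ν v ^ (1 + s)) ≤ s * ∑ v, ν v ^ (1 + s) * log (ν v) := by
  set Q := ∑ v, ν v ^ (1 + s) with hQd
  have h : ∀ v, ν v ^ (1 + s) - Q * ν v ≤ s * (ν v ^ (1 + s) * log (ν v)) - ν v ^ (1 + s) * log Q := by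
    intro v
    rcases (h0 v).eq_or_lt with h | h
    · rw [← h, Real.zero_rpow (by positivity)]; simp
    · have h2 : (0 : ℝ) < ν v ^ s / Q := by positivity
      have h3 := Real.one_sub_inv_le_log_of_pos h2
      rw [Real.log_div (by positivity) hQ.ne', Real.log_rpow h, inv_div] at h3
      have h4 : ν v ^ (1 + s) = ν v * ν v ^ s := by rw [Real.rpow_add h, Real.rpow_one]
      have h5 := mul_le_mul_of_nonneg_left h3 (by positivity : 0 ≤ ν v ^ (1 + s))
      have h6 : ν v ^ (1 + s) * (1 - Q / ν v ^ s) = ν v ^ (1 + s) - Q * ν v := by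
        rw [h4]
        have : ν v ^ s ≠ 0 := by positivity
        field_simp
      rw [h6] at h5
      linarith
  have hs' := sum_le_sum fun v (_ : v ∈ univ) => h v
  rw [sum_sub_distrib, sum_sub_distrib, ← mul_sum, ← mul_sum, ← sum_mul, ← hQd] at hs'
  nlinarith

/-- **Almost invariant distributions are spread out.** -/
theorem spread {f : (Fin n → Bool) → ℝ} (hf : Function.Injective f) (ν : (Fin n → Bool) → ℝ)
    (F : (Fin n → Bool) → Fin n → ℝ) (u : Fin n → Bool) {l ρ lam c0 s τ ε : ℝ}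
    (hs : 0 < s) (hs9 : s ≤ 1 / 9) (hτ : 3 ≤ τ) (hsτ : s * τ ≤ 1)
    (hl : 0 < l) (hρ : 0 < ρ) (hlam : 0 < lam) (hc0 : 0 ≤ c0)
    (hν0 : ∀ v, 0 ≤ ν v) (hν1 : ∑ v, ν v ≤ 1) (hF0 : ∀ v i, 0 ≤ F v i)
    (hFl : ∀ v, ∀ i ∈ improving f v, F v i * l ≤ ρ * ν v)
    (hF1 : ∀ v, ∑ i ∈ improving f v, F v i ≤ ν v)
    (hsub : ∀ v, ν v ≤ lam * ∑ i ∈ (improving f v)ᶜ, F (flip v i) i + if v = u then c0 else 0)
    (hQ : c0 ≤ ε * ∑ v, ν v ^ (1 + s)) :
    ∑ v, ν v ^ (1 + s) ≤ exp (- s * ((l / ρ) * (2 * log 2 - (1 + s) * log 2 * s * τ ^ 2 -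
      (1 + s) * log 2 / s * (1 - (1 - ε) / lam)) - (1 + s) * log 2 / s * exp (-τ) * n)) := by
  classical
  set c := (1 + s) * log 2 / s with hc
  set B := 2 * log 2 - (1 + s) * log 2 * s * τ ^ 2 - c with hB
  set Q := ∑ v, ν v ^ (1 + s) with hQd
  have hl2 : 0 < log 2 := Real.log_pos (by norm_num)
  have hcpos : 0 < c := by positivity
  have hB0 : B ≤ 0 := by
    have h1 : 0 ≤ (1 + s) * log 2 * s * τ ^ 2 := by positivity
    have h2 : 2 * log 2 ≤ c := by
      rw [hc, le_div_iff₀ hs]; nlinarith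
    linarith
  have hg0 : ∀ v, 0 ≤ ν v ^ (1 + s) := fun v => Real.rpow_nonneg (hν0 v) _
  have hQ0 : 0 ≤ Q := sum_nonneg fun v _ => hg0 v
  rcases hQ0.eq_or_lt with h | hQpos
  · rw [← h]; exact (exp_pos _).le
  -- the lower bound for an edge
  have hedge : ∀ v, ∀ i ∈ improving f v,
      l * (B * (F v i * ν v ^ s) + c * (F v i * ν (flip v i) ^ s)) -
        c * (ρ * exp (-τ) * ν (flip v i) ^ (1 + s))
      ≤ ρ * e2 (ν v ^ (1 + s)) (ν (flip v i) ^ (1 + s)) := by
    intro v i hi
    have he := e2_nonneg (hg0 v) (hg0 (flip v i))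
    have hb := hν0 (flip v i)
    by_cases hgood : ν (flip v i) ≤ exp τ * ν v
    · have hlast : 0 ≤ c * (ρ * exp (-τ) * ν (flip v i) ^ (1 + s)) := by
        have := hg0 (flip v i)
        positivity
      rcases (hν0 v).eq_or_lt with h0 | h0
      · have h1 : F v i = 0 := by
          have h2 := hFl v i hi
          rw [← h0, mul_zero] at h2
          have h3 := hF0 v i
          by_contra h4
          have h5 : 0 < F v i := lt_of_le_of_ne h3 (Ne.symm h4)
          nlinarith
        rw [h1]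
        have : 0 ≤ ρ * e2 (ν v ^ (1 + s)) (ν (flip v i) ^ (1 + s)) := by positivity
        linarith
      · have h1 := edge_ineq hs hs9 hτ hsτ h0 hb hgood
        rw [← hc, ← hB] at h1
        have h2 : ν v ^ (1 + s) = ν v * ν v ^ s := by rw [Real.rpow_add h0, Real.rpow_one]
        have h3 : B * ν v ^ (1 + s) + c * (ν v * ν (flip v i) ^ s) =
            ν v * (B * ν v ^ s + c * ν (flip v i) ^ s) := by rw [h2]; ring
        rw [h3] at h1
        have h4 : l * (B * (F v i * ν v ^ s) + c * (F v i * ν (flip v i) ^ s)) =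
            (F v i * l) * (B * ν v ^ s + c * ν (flip v i) ^ s) := by ring
        rw [h4]
        rcases le_total 0 (B * ν v ^ s + c * ν (flip v i) ^ s) with h5 | h5
        · have h6 := mul_le_mul_of_nonneg_right (hFl v i hi) h5
          have h7 := mul_le_mul_of_nonneg_left h1 hρ.le
          have h8 : ρ * ν v * (B * ν v ^ s + c * ν (flip v i) ^ s) =
            ρ * (ν v * (B * ν v ^ s + c * ν (flip v i) ^ s)) := by ring
          linarith
        · have h6 : (F v i * l) * (B * ν v ^ s + c * ν (flip v i) ^ s) ≤ 0 :=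
            mul_nonpos_of_nonneg_of_nonpos (mul_nonneg (hF0 v i) hl.le) h5
          have h7 : 0 ≤ ρ * e2 (ν v ^ (1 + s)) (ν (flip v i) ^ (1 + s)) := by positivity
          linarith
    · rw [not_le] at hgood
      have hbpos : 0 < ν (flip v i) := lt_of_le_of_lt (mul_nonneg (exp_pos _).le (hν0 v)) hgood
      have h1 : ν v ≤ exp (-τ) * ν (flip v i) := by
        rw [Real.exp_neg, ← div_eq_inv_mul, le_div_iff₀ (exp_pos _)]
        linarith
      have h2 : F v i * l ≤ ρ * exp (-τ) * ν (flip v i) := by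
        have := mul_le_mul_of_nonneg_left h1 hρ.le
        have h3 := hFl v i hi
        linarith
      have h3 : ν (flip v i) ^ (1 + s) = ν (flip v i) * ν (flip v i) ^ s := by
        rw [Real.rpow_add hbpos, Real.rpow_one]
      have h4 : (F v i * l) * ν (flip v i) ^ s ≤ (ρ * exp (-τ) * ν (flip v i)) * ν (flip v i) ^ s :=
        mul_le_mul_of_nonneg_right h2 (Real.rpow_nonneg hb _)
      have h5 : l * (B * (F v i * ν v ^ s)) ≤ 0 := by
        apply mul_nonpos_of_nonneg_of_nonpos hl.le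
        exact mul_nonpos_of_nonpos_of_nonneg hB0 (mul_nonneg (hF0 v i) (Real.rpow_nonneg (hν0 v) _))
      have h6 := mul_le_mul_of_nonneg_left h4 hcpos.le
      have h7 : 0 ≤ ρ * e2 (ν v ^ (1 + s)) (ν (flip v i) ^ (1 + s)) := by positivity
      have h8 : c * (ρ * exp (-τ) * ν (flip v i) ^ (1 + s)) =
          c * (ρ * exp (-τ) * ν (flip v i) * ν (flip v i) ^ s) := by rw [h3]; ring
      have h9 : l * (B * (F v i * ν v ^ s) + c * (F v i * ν (flip v i) ^ s)) =
          l * (B * (F v i * ν v ^ s)) + c * (F v i * l * ν (flip v i) ^ s) := by ring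
      rw [h8, h9]
      linarith
  -- sums
  have hS1 : ∑ v, ∑ i ∈ improving f v, F v i * ν v ^ s ≤ Q := by
    refine sum_le_sum fun v _ => ?_
    rw [← sum_mul]
    have h1 := mul_le_mul_of_nonneg_right (hF1 v) (Real.rpow_nonneg (hν0 v) s)
    refine h1.trans (le_of_eq ?_)
    rcases (hν0 v).eq_or_lt with h0 | h0
    · rw [← h0, Real.zero_rpow (by positivity : (1 + s) ≠ 0)]; simp
    · rw [Real.rpow_add h0, Real.rpow_one]
  have hS2 : (Q - c0) / lam ≤ ∑ v, ∑ i ∈ improving f v, F v i * ν (flip v i) ^ s := by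
    have h1 : ∑ v, ∑ i ∈ improving f v, F v i * ν (flip v i) ^ s =
        ∑ v, ∑ i ∈ (improving f v)ᶜ, F (flip v i) i * ν v ^ s := by
      rw [reindex hf (fun v i => F (flip v i) i * ν v ^ s)]
      refine sum_congr rfl fun v _ => sum_congr rfl fun i _ => ?_
      simp only [flip_flip]
    rw [h1, div_le_iff₀ hlam]
    have h2 : ∀ v, ν v ^ (1 + s) - (if v = u then c0 else 0) ≤
        (∑ i ∈ (improving f v)ᶜ, F (flip v i) i * ν v ^ s) * lam := by
      intro v
      rw [← sum_mul]
      have h3 := mul_le_mul_of_nonneg_right (hsub v) (Real.rpow_nonneg (hν0 v) s)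
      have h4 : ν v ^ (1 + s) = ν v * ν v ^ s := by
        rcases (hν0 v).eq_or_lt with h0 | h0
        · rw [← h0, Real.zero_rpow (by positivity)]; simp
        · rw [Real.rpow_add h0, Real.rpow_one]
      have h5 : (if v = u then c0 else 0) * ν v ^ s ≤ if v = u then c0 else 0 := by
        have h6 : ν v ^ s ≤ 1 := by
          apply Real.rpow_le_one (hν0 v) _ hs.le
          exact (single_le_sum (fun w _ => hν0 w) (mem_univ v)).trans hν1
        have h7 : (0 : ℝ) ≤ if v = u then c0 else 0 := by split_ifs <;> simp [hc0]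
        nlinarith [Real.rpow_nonneg (hν0 v) s]
      rw [h4]
      nlinarith
    have h3 := sum_le_sum fun v (_ : v ∈ univ) => h2 v
    rw [sum_sub_distrib, ← sum_mul] at h3
    simp only [sum_ite_eq', mem_univ, if_true] at h3
    exact h3
  have hS3 : ∑ v, ∑ i ∈ improving f v, ν (flip v i) ^ (1 + s) ≤ n * Q := by
    have h1 : ∑ v, ∑ i ∈ improving f v, ν (flip v i) ^ (1 + s) =
        ∑ v, ∑ i ∈ (improving f v)ᶜ, ν v ^ (1 + s) := by
      rw [reindex hf (fun v i => ν v ^ (1 + s))]
    rw [h1, hQd, mul_sum]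
    refine sum_le_sum fun v _ => ?_
    rw [sum_const, nsmul_eq_mul]
    apply mul_le_mul_of_nonneg_right _ (hg0 v)
    have : ((improving f v)ᶜ).card ≤ n := by
      have := card_le_univ ((improving f v)ᶜ)
      simpa using this
    exact_mod_cast this
  -- the total
  have htot := sum_le_sum fun v (_ : v ∈ univ) => sum_le_sum fun i (hi : i ∈ improving f v) =>
    hedge v i hi
  simp only [sum_sub_distrib, ← mul_sum, sum_add_distrib] at htot
  have hE := edge_entropy' hf (fun v => ν v ^ (1 + s)) hg0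
  simp only [← hQd] at hE
  have hnml : ∑ v, negMulLog (ν v ^ (1 + s)) = - (1 + s) * ∑ v, ν v ^ (1 + s) * log (ν v) := by
    rw [mul_sum]
    refine sum_congr rfl fun v _ => ?_
    rcases (hν0 v).eq_or_lt with h0 | h0
    · rw [← h0, Real.zero_rpow (by positivity)]; simp
    · unfold negMulLog
      rw [Real.log_rpow h0]; ring
  have hG := gibbs ν hν0 hν1 hs hQpos
  rw [← hQd] at hG
  rw [hnml] at hE
  set Lg := ∑ v, ν v ^ (1 + s) * log (ν v) with hLg
  set E := ∑ v, ∑ i ∈ improving f v, e2 (ν v ^ (1 + s)) (ν (flip v i) ^ (1 + s)) with hEd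
  set S1 := ∑ v, ∑ i ∈ improving f v, F v i * ν v ^ s with hS1d
  set S2 := ∑ v, ∑ i ∈ improving f v, F v i * ν (flip v i) ^ s with hS2d
  set S3 := ∑ v, ∑ i ∈ improving f v, ν (flip v i) ^ (1 + s) with hS3d
  have hS2' : (1 - ε) / lam * Q ≤ S2 := by
    refine le_trans ?_ hS2
    rw [div_mul_eq_mul_div, div_le_div_iff_of_pos_right hlam]
    linarith
  -- lower bound for ρ E
  have hlow : Q * (l * B + c * l * ((1 - ε) / lam) - c * ρ * exp (-τ) * n) ≤ ρ * E := by
    have h1 : B * Q ≤ B * S1 := mul_le_mul_of_nonpos_left hS1 hB0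
    have h2 : c * ((1 - ε) / lam * Q) ≤ c * S2 := mul_le_mul_of_nonneg_left hS2' hcpos.le
    have h3 : c * (ρ * exp (-τ) * S3) ≤ c * (ρ * exp (-τ) * (n * Q)) := by
      apply mul_le_mul_of_nonneg_left _ hcpos.le
      apply mul_le_mul_of_nonneg_left hS3 (by positivity)
    have h4 : l * (B * Q + c * ((1 - ε) / lam * Q)) ≤ l * (B * S1 + c * S2) :=
      mul_le_mul_of_nonneg_left (by linarith) hl.le
    nlinarith
  have hup : E ≤ - (1 / s) * (Q * log Q) := by
    unfold negMulLog at hE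
    have h1 : (1 + s) * (Q * log Q) ≤ (1 + s) * (s * Lg) :=
      mul_le_mul_of_nonneg_left hG (by positivity)
    have h2 : s * E ≤ - (Q * log Q) := by nlinarith
    have h3 : E = (1 / s) * (s * E) := by field_simp
    rw [h3]
    have := mul_le_mul_of_nonneg_left h2 (by positivity : 0 ≤ 1 / s)
    linarith
  set Γ := (l / ρ) * (2 * log 2 - (1 + s) * log 2 * s * τ ^ 2 - c * (1 - (1 - ε) / lam)) -
    c * exp (-τ) * n with hΓ
  have hΓρ : ρ * Γ = l * B + c * l * ((1 - ε) / lam) - c * ρ * exp (-τ) * n := by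
    rw [hΓ, hB]
    field_simp
    ring
  rw [← hΓρ] at hlow
  have h5 : Q * Γ ≤ - (1 / s) * (Q * log Q) := by
    have : ρ * (Q * Γ) ≤ ρ * (-(1 / s) * (Q * log Q)) := by
      have := mul_le_mul_of_nonneg_left hup hρ.le
      nlinarith
    exact le_of_mul_le_mul_left this hρ
  have h6 : log Q ≤ - s * Γ := by
    have h7 : Q * (s * Γ) ≤ Q * (- log Q) := by
      have := mul_le_mul_of_nonneg_left h5 hs.le
      have e : s * (-(1 / s) * (Q * log Q)) = - (Q * log Q) := by field_simp
      rw [e] at this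
      nlinarith
    have := le_of_mul_le_mul_left h7 hQpos
    linarith
  calc Q = exp (log Q) := (Real.exp_log hQpos).symm
    _ ≤ _ := Real.exp_le_exp.2 h6

end Pool.Agent.H80.RE
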