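import Pool.Agent.H80.RE.Def
set_option autoImplicit false

/-!
# The number of vertices with few improving directions
-/

namespace Pool.Agent.H80.RE

open Finset

variable {n : ℕ}

theorem card_agree (U : Finset (Fin n)) (y : Fin n → Bool) :
    (univ.filter fun x : Fin n → Bool => ∀ i, i ∉ U → y i = x i).card = 2 ^ U.card := by
  classical
  have h : (univ.filter fun x : Fin n → Bool => ∀ i, i ∉ U → y i = x i) =
      Fintype.piFinset (fun i => if i ∈ U then univ else {y i}) := by
    ext x
    simp only [mem_filter, mem_univ, true_and, Fintype.mem_piFinset]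
    constructor
    · intro hx i
      by_cases hi : i ∈ U
      · simp [hi]
      · simp [hi, hx i hi]
    · intro hx i hi
      have := hx i
      simp [hi] at this
      exact this.symm
  rw [h, Fintype.card_piFinset]
  have h2 : ∀ i, (if i ∈ U then (univ : Finset Bool) else {y i}).card = if i ∈ U then 2 else 1 := by
    intro i
    by_cases hi : i ∈ U <;> simp [hi]
  simp only [h2]
  rw [prod_ite]
  simp

theorem card_good {f : (Fin n → Bool) → ℝ} (h1 : OneMax f) (U : Finset (Fin n)) :
    (univ.filter fun y : Fin n → Bool => ∀ i ∈ U, f (flip y i) < f y).card * 2 ^ U.card = 2 ^ n := by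
  classical
  have hA : ∑ x : Fin n → Bool, (univ.filter fun y : Fin n → Bool =>
      (∀ i, i ∉ U → y i = x i) ∧ ∀ i ∈ U, f (flip y i) < f y).card = 2 ^ n := by
    have : ∀ x : Fin n → Bool, (univ.filter fun y : Fin n → Bool =>
      (∀ i, i ∉ U → y i = x i) ∧ ∀ i ∈ U, f (flip y i) < f y).card = 1 := by
      intro x
      obtain ⟨y, hy, hu⟩ := h1 U x
      rw [card_eq_one]
      refine ⟨y, ?_⟩
      ext z
      simp only [mem_filter, mem_univ, true_and, mem_singleton]
      exact ⟨fun hz => hu z hz, fun hz => hz ▸ hy⟩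
    simp [this]
  rw [← hA]
  simp only [card_filter]
  rw [sum_comm]
  have hB : ∀ y : Fin n → Bool, (∑ x : Fin n → Bool,
      if (∀ i, i ∉ U → y i = x i) ∧ ∀ i ∈ U, f (flip y i) < f y then 1 else 0) =
      (if ∀ i ∈ U, f (flip y i) < f y then 1 else 0) * 2 ^ U.card := by
    intro y
    by_cases h : ∀ i ∈ U, f (flip y i) < f y
    · have h' : ∀ x : Fin n → Bool, ((∀ i, i ∉ U → y i = x i) ∧ ∀ i ∈ U, f (flip y i) < f y) ↔
          (∀ i, i ∉ U → y i = x i) := fun x => and_iff_left h
      rw [if_pos h, one_mul]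
      simp only [h']
      rw [← card_filter, card_agree]
    · rw [if_neg h, zero_mul]
      apply sum_eq_zero
      intro x _
      rw [if_neg]
      exact fun hh => h hh.2
  simp only [hB]
  rw [← sum_mul]

/-- `∑ z ^ (n - deg v) = (1 + z) ^ n` -/
theorem sum_pow_deg {f : (Fin n → Bool) → ℝ} (hf : Function.Injective f) (h1 : OneMax f) (y : ℝ) :
    ∑ v : Fin n → Bool, (1 + y) ^ ((improving f v)ᶜ).card = (2 + y) ^ n := by
  classical
  have hA : ∀ v : Fin n → Bool, (1 + y) ^ ((improving f v)ᶜ).card =
      ∑ U : Finset (Fin n), if ∀ i ∈ U, f (flip v i) < f v then y ^ U.card else 0 := by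
    intro v
    have h2 : ∑ U ∈ ((improving f v)ᶜ).powerset, y ^ U.card * 1 ^ (((improving f v)ᶜ).card - U.card) =
      (y + 1) ^ ((improving f v)ᶜ).card := Finset.sum_pow_mul_eq_add_pow _ _ _
    rw [add_comm 1 y, ← h2, ← sum_filter]
    refine sum_congr ?_ fun U _ => by simp
    ext U
    simp only [mem_powerset, mem_filter, mem_univ, true_and]
    constructor
    · intro hU i hi
      have h3 := hU hi
      rw [mem_compl, mem_improving, not_lt] at h3
      exact lt_of_le_of_ne h3 fun e => flip_ne_self v i (hf e)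
    · intro hU i hi
      rw [mem_compl, mem_improving, not_lt]
      exact (hU i hi).le
  simp only [hA]
  rw [sum_comm]
  have hB : ∀ U : Finset (Fin n), (∑ v : Fin n → Bool,
      if ∀ i ∈ U, f (flip v i) < f v then y ^ U.card else 0) = y ^ U.card * 2 ^ (n - U.card) := by
    intro U
    rw [← sum_filter, sum_const, nsmul_eq_mul, mul_comm]
    congr 1
    have h3 := card_good h1 U
    have h4 : U.card ≤ n := by simpa using card_le_univ U
    have h5 : (2 : ℕ) ^ n = 2 ^ (n - U.card) * 2 ^ U.card := by
      rw [← pow_add]; congr 1; omega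
    rw [h5] at h3
    have h6 := Nat.eq_of_mul_eq_mul_right (by positivity) h3
    exact_mod_cast h6
  simp only [hB]
  have h7 : ∑ U ∈ (univ : Finset (Fin n)).powerset, y ^ U.card * 2 ^ ((univ : Finset (Fin n)).card - U.card) =
    (y + 2) ^ (univ : Finset (Fin n)).card := Finset.sum_pow_mul_eq_add_pow _ _ _
  simp only [powerset_univ, card_univ, Fintype.card_fin] at h7
  rw [h7, add_comm]

/-- few vertices have few improving directions -/
theorem card_low {f : (Fin n → Bool) → ℝ} (hf : Function.Injective f) (h1 : OneMax f) {z : ℝ}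
    (hz : 1 ≤ z) (B : ℕ) :
    ((univ.filter fun v : Fin n → Bool => (improving f v).card < B).card : ℝ) ≤
      z ^ B * (1 + 1 / z) ^ n := by
  have hz0 : 0 < z := by linarith
  have h := sum_pow_deg hf h1 (z - 1)
  have e1 : 1 + (z - 1) = z := by ring
  have e2 : 2 + (z - 1) = 1 + z := by ring
  rw [e1, e2] at h
  have h3 : (1 + 1 / z) ^ n = (1 + z) ^ n / z ^ n := by
    rw [← div_pow]; congr 1; field_simp; ring
  rw [h3, ← mul_div_assoc, le_div_iff₀ (by positivity), ← h, card_eq_sum_ones, Nat.cast_sum,
    sum_mul, mul_sum]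
  have h4 : ∀ v : Fin n → Bool, 0 ≤ z ^ B * z ^ ((improving f v)ᶜ).card := fun v => by positivity
  refine le_trans ?_ (sum_le_univ_sum_of_nonneg (s := univ.filter fun v : Fin n → Bool =>
    (improving f v).card < B) h4)
  refine sum_le_sum fun v hv => ?_
  rw [mem_filter] at hv
  rw [← pow_add]
  push_cast
  rw [one_mul]
  apply pow_le_pow_right₀ hz
  rw [card_compl, Fintype.card_fin]
  omega

end Pool.Agent.H80.RE
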