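import Mathlib
set_option autoImplicit false

/-!
# Random walks on finite acyclic digraphs

`imp v` is a set of vertices which are better than `v`.  A rule with memory which chooses every
`w ∈ imp v` with probability at most `ρ / |imp v|` makes at most
`e ρ ∑ 1 / |imp v| + (2 + log ρ) (number of sinks) + log Δ` expected steps.

The proof is by a potential: the vertices `u` above the present vertex cost `e ρ / |imp u|` (and
`2 + log ρ` if `u` is a sink), and `log |imp v|` is subtracted.
-/

namespace Pool.Agent.H80.RE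

open Finset Real

/-- `steps imp p T h x` is the probability that the rule `p` makes at least `T` further steps from
the vertex `x` when it has visited the vertices `h` before: `p (x :: h) w` is the probability of the
step from `x` to `w`. -/
noncomputable def steps {V : Type} (imp : V → Finset V) (p : List V → V → ℝ) :
    ℕ → List V → V → ℝ
  | 0, _, _ => 1
  | T + 1, h, x => ∑ w ∈ imp x, p (x :: h) w * steps imp p T (x :: h) w

/-- the left Riemann sums of `log` -/
theorem sum_log_ge {V : Type} (f p : V → ℝ) (s : Finset V) (hp : ∀ w ∈ s, 0 ≤ p w)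
    (h1 : ∑ w ∈ s, p w ≤ 1) :
    -(∑ w ∈ s, p w) - (1 - ∑ w ∈ s, p w) * log (1 - ∑ w ∈ s, p w) ≤
      ∑ w ∈ s, p w * log (1 - ∑ v ∈ s.filter (fun v => f v < f w), p v) := by
  classical
  induction s using Finset.induction_on_max_value f with
  | empty => simp
  | insert a s ha hmax ih =>
    have hps : ∀ w ∈ s, 0 ≤ p w := fun w hw => hp w (mem_insert_of_mem hw)
    have hpa : 0 ≤ p a := hp a (mem_insert_self a s)
    rw [sum_insert ha] at h1
    have hS0 : 0 ≤ ∑ w ∈ s, p w := sum_nonneg hps
    have hS1 : ∑ w ∈ s, p w ≤ 1 := by linarith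
    have ih' := ih hps hS1
    rw [sum_insert ha, sum_insert ha]
    have e1 : ∀ w ∈ s, (insert a s).filter (fun v => f v < f w) = s.filter (fun v => f v < f w) := by
      intro w hw
      rw [filter_insert, if_neg (not_lt.2 (hmax w hw))]
    have e2 : ∑ w ∈ s, p w * log (1 - ∑ v ∈ (insert a s).filter (fun v => f v < f w), p v) =
        ∑ w ∈ s, p w * log (1 - ∑ v ∈ s.filter (fun v => f v < f w), p v) :=
      sum_congr rfl fun w hw => by rw [e1 w hw]
    rw [e2]
    have e3 : (insert a s).filter (fun v => f v < f a) = s.filter (fun v => f v < f a) := by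
      rw [filter_insert, if_neg (lt_irrefl _)]
    rw [e3]
    set S := ∑ w ∈ s, p w with hS
    have e4 : ∑ v ∈ s.filter (fun v => f v < f a), p v ≤ S :=
      sum_le_sum_of_subset_of_nonneg (filter_subset _ _) fun w hw _ => hps w hw
    set I := ∑ v ∈ s.filter (fun v => f v < f a), p v with hI
    -- the new term
    have e5 : p a * log (1 - S) ≤ p a * log (1 - I) := by
      rcases hpa.eq_or_lt with h | h
      · rw [← h]; simp
      · apply mul_le_mul_of_nonneg_left _ hpa
        apply Real.log_le_log <;> linarith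
    have e6 : (1 - (p a + S)) * log (1 - S) - (1 - (p a + S)) * log (1 - (p a + S)) ≤ p a := by
      rcases hpa.eq_or_lt with h | h
      · rw [← h]; simp
      have hb : 0 ≤ 1 - (p a + S) := by linarith
      rcases hb.eq_or_lt with h' | h'
      · rw [← h']; simp [hpa]
      · have ha' : 0 < 1 - S := by linarith
        have e7 : log ((1 - S) / (1 - (p a + S))) ≤ (1 - S) / (1 - (p a + S)) - 1 :=
          Real.log_le_sub_one_of_pos (div_pos ha' h')
        rw [Real.log_div ha'.ne' h'.ne'] at e7
        have e8 := mul_le_mul_of_nonneg_left e7 h'.le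
        have e9 : (1 - (p a + S)) * ((1 - S) / (1 - (p a + S)) - 1) = p a := by
          field_simp
          ring
        rw [e9] at e8
        linarith
    nlinarith

/-- the cost of a vertex with `k` better neighbours -/
noncomputable def cost (ρ : ℝ) (k : ℕ) : ℝ := if k = 0 then 2 + log ρ else exp 1 * ρ / k

theorem cost_nonneg {ρ : ℝ} (hρ : 1 ≤ ρ) (k : ℕ) : 0 ≤ cost ρ k := by
  unfold cost
  have := Real.log_nonneg hρ
  split
  · linarith
  · positivity

theorem cost_ineq {ρ : ℝ} (hρ : 1 ≤ ρ) (k l : ℕ) (hl : 0 < l) {P q : ℝ} (hq : 0 ≤ q) (hqP : q ≤ P)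
    (hql : q * l ≤ ρ) :
    q * (2 + log l + log P) ≤ cost ρ k * P + q * log k := by
  have hl' : (0 : ℝ) < l := by exact_mod_cast hl
  have hρ0 : 0 < ρ := by linarith
  rcases hq.eq_or_lt with h | h
  · rw [← h, zero_mul, zero_mul, add_zero]
    exact mul_nonneg (cost_nonneg hρ k) (hq.trans hqP)
  have hP : 0 < P := h.trans_le hqP
  have h1 : log q ≤ log ρ - log l := by
    rw [← Real.log_div hρ0.ne' hl'.ne']
    apply Real.log_le_log h
    rwa [le_div_iff₀ hl']
  have h2 : q * (2 + log l + log P) ≤ q * (2 + log ρ + log P - log q) :=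
    mul_le_mul_of_nonneg_left (by linarith) hq
  refine h2.trans ?_
  unfold cost
  split_ifs with hk
  · rw [hk]
    simp only [Nat.cast_zero, Real.log_zero, mul_zero, add_zero]
    have h3 : log (P / q) ≤ P / q - 1 := Real.log_le_sub_one_of_pos (div_pos hP h)
    rw [Real.log_div hP.ne' h.ne'] at h3
    have h4 := mul_le_mul_of_nonneg_left h3 hq
    have h5 : q * (P / q - 1) = P - q := by field_simp
    rw [h5] at h4
    have h6 := Real.log_nonneg hρ
    nlinarith
  · have hk' : (0 : ℝ) < k := by exact_mod_cast Nat.pos_of_ne_zero hk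
    have h3 : log (exp 1 * ρ * P / (q * k)) ≤ exp 1 * ρ * P / (q * k) - 1 :=
      Real.log_le_sub_one_of_pos (by positivity)
    rw [Real.log_div (by positivity) (by positivity), Real.log_mul (by positivity) hP.ne',
      Real.log_mul (Real.exp_pos 1).ne' hρ0.ne', Real.log_mul h.ne' hk'.ne', Real.log_exp] at h3
    have h4 := mul_le_mul_of_nonneg_left h3 hq
    have h5 : q * (exp 1 * ρ * P / (q * k) - 1) = exp 1 * ρ / k * P - q := by field_simp
    rw [h5] at h4
    nlinarith

section

variable {V : Type} [Fintype V] (f : V → ℝ) (imp : V → Finset V) (ρ : ℝ)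

/-- the total cost of the vertices above `x` -/
noncomputable def above (x : V) : ℝ := by
  classical exact ∑ u ∈ univ.filter (fun u => f x < f u), cost ρ (imp u).card

/-- the potential -/
noncomputable def pot (Δ : ℕ) (x : V) : ℝ := above f imp ρ x + log Δ - log (imp x).card

variable {f imp ρ}

theorem above_step (hρ : 1 ≤ ρ) (hf : ∀ v, ∀ w ∈ imp v, f v < f w) (x : V) (q : V → ℝ)
    (hq : ∀ w ∈ imp x, 0 ≤ q w) (h1 : ∑ w ∈ imp x, q w ≤ 1) :
    ∑ w ∈ imp x, q w * above f imp ρ w +
      ∑ u ∈ imp x, cost ρ (imp u).card * (1 - ∑ w ∈ (imp x).filter (fun w => f w < f u), q w) ≤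
      above f imp ρ x := by
  classical
  have e1 : ∑ w ∈ imp x, q w * above f imp ρ w =
      ∑ u, cost ρ (imp u).card * ∑ w ∈ (imp x).filter (fun w => f w < f u), q w := by
    unfold above
    simp_rw [sum_filter, mul_sum]
    rw [sum_comm]
    refine sum_congr rfl fun u _ => sum_congr rfl fun w _ => ?_
    split_ifs <;> ring
  have e2 : ∑ u, cost ρ (imp u).card * ∑ w ∈ (imp x).filter (fun w => f w < f u), q w =
      ∑ u ∈ univ.filter (fun u => f x < f u),
        cost ρ (imp u).card * ∑ w ∈ (imp x).filter (fun w => f w < f u), q w := by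
    rw [sum_filter]
    refine sum_congr rfl fun u _ => ?_
    split_ifs with h
    · rfl
    · have : (imp x).filter (fun w => f w < f u) = ∅ := by
        apply filter_eq_empty_iff.2
        intro w hw hlt
        exact h ((hf x w hw).trans hlt)
      rw [this]; simp
  have e3 : ∑ u ∈ imp x, cost ρ (imp u).card *
      (1 - ∑ w ∈ (imp x).filter (fun w => f w < f u), q w) ≤
      ∑ u ∈ univ.filter (fun u => f x < f u), cost ρ (imp u).card *
      (1 - ∑ w ∈ (imp x).filter (fun w => f w < f u), q w) := by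
    apply sum_le_sum_of_subset_of_nonneg
    · intro u hu
      rw [mem_filter]
      exact ⟨mem_univ _, hf x u hu⟩
    · intro u _ _
      apply mul_nonneg (cost_nonneg hρ _)
      have : ∑ w ∈ (imp x).filter (fun w => f w < f u), q w ≤ ∑ w ∈ imp x, q w :=
        sum_le_sum_of_subset_of_nonneg (filter_subset _ _) fun w hw _ => hq w hw
      linarith
  rw [e1, e2]
  refine (add_le_add_right e3 _).trans ?_
  rw [← sum_add_distrib]
  unfold above
  apply le_of_eq
  refine sum_congr rfl fun u _ => ?_
  ring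

theorem pot_step (hρ : 1 ≤ ρ) (hf : ∀ v, ∀ w ∈ imp v, f v < f w) {Δ : ℕ}
    (hΔ : ∀ v, (imp v).card ≤ Δ) (x : V) (q : V → ℝ)
    (hq : ∀ w ∈ imp x, 0 ≤ q w) (h1 : ∑ w ∈ imp x, q w ≤ 1)
    (hb : ∀ w ∈ imp x, q w * (imp x).card ≤ ρ) :
    ∑ w ∈ imp x, q w * (1 + pot f imp ρ Δ w) ≤ pot f imp ρ Δ x := by
  classical
  have habove : ∀ y, 0 ≤ above f imp ρ y := fun y => sum_nonneg fun u _ => cost_nonneg hρ _
  rcases (imp x).eq_empty_or_nonempty with h0 | h0
  · rw [h0, sum_empty]
    unfold pot
    rw [h0]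
    simp only [card_empty, Nat.cast_zero, Real.log_zero, sub_zero]
    have := habove x
    have := Real.log_natCast_nonneg Δ
    linarith
  have hl : 0 < (imp x).card := card_pos.2 h0
  have hl' : (0 : ℝ) < (imp x).card := by exact_mod_cast hl
  set l := (imp x).card with hldef
  set S := ∑ w ∈ imp x, q w with hS
  have hS0 : 0 ≤ S := sum_nonneg hq
  have k1 := above_step hρ hf x q hq h1
  have k2 : ∑ u ∈ imp x, q u * (2 + log l + log (1 - ∑ w ∈ (imp x).filter (fun w => f w < f u), q w)) ≤
      ∑ u ∈ imp x, (cost ρ (imp u).card *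
        (1 - ∑ w ∈ (imp x).filter (fun w => f w < f u), q w) + q u * log (imp u).card) := by
    refine sum_le_sum fun u hu => ?_
    apply cost_ineq hρ _ _ hl (hq u hu) _ (hb u hu)
    have k3 : q u + ∑ w ∈ (imp x).filter (fun w => f w < f u), q w ≤ S := by
      have hnot : u ∉ (imp x).filter (fun w => f w < f u) := by simp
      rw [← sum_insert hnot]
      apply sum_le_sum_of_subset_of_nonneg
      · intro w hw
        rw [mem_insert, mem_filter] at hw
        rcases hw with rfl | hw
        · exact hu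
        · exact hw.1
      · intro w hw _; exact hq w hw
    linarith
  have k4 := sum_log_ge f q (imp x) hq h1
  rw [← hS] at k4
  have k5 : (1 - S) * log (1 - S) ≤ 0 := by
    rcases (sub_nonneg.2 h1).eq_or_lt with h | h
    · rw [← h]; simp
    · exact mul_nonpos_of_nonneg_of_nonpos h.le (Real.log_nonpos h.le (by linarith))
  have k6 : ∑ u ∈ imp x, q u * (2 + log l + log (1 - ∑ w ∈ (imp x).filter (fun w => f w < f u), q w))
      = S * (2 + log l) +
        ∑ u ∈ imp x, q u * log (1 - ∑ w ∈ (imp x).filter (fun w => f w < f u), q w) := by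
    rw [hS, sum_mul, ← sum_add_distrib]
    refine sum_congr rfl fun u _ => ?_
    ring
  have k7 : ∑ w ∈ imp x, q w * (1 + pot f imp ρ Δ w) =
      S * (1 + log Δ) + ∑ w ∈ imp x, q w * above f imp ρ w - ∑ w ∈ imp x, q w * log (imp w).card := by
    rw [hS, sum_mul, ← sum_add_distrib, ← sum_sub_distrib]
    refine sum_congr rfl fun w _ => ?_
    unfold pot
    ring
  rw [sum_add_distrib] at k2
  have k8 : log l ≤ log Δ := Real.log_le_log hl' (by exact_mod_cast hΔ x)
  rw [k7]
  unfold pot
  rw [← hldef]
  have k9 : (1 - S) * log l ≤ (1 - S) * log Δ :=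
    mul_le_mul_of_nonneg_left k8 (by linarith)
  nlinarith

theorem steps_succ_sum (imp : V → Finset V) (p : List V → V → ℝ) (N : ℕ) (h : List V) (x : V) :
    ∑ t ∈ range (N + 1), steps imp p (t + 1) h x =
      ∑ w ∈ imp x, p (x :: h) w * (1 + ∑ t ∈ range N, steps imp p (t + 1) (x :: h) w) := by
  have e1 : ∀ t, steps imp p (t + 1) h x = ∑ w ∈ imp x, p (x :: h) w * steps imp p t (x :: h) w :=
    fun t => rfl
  simp_rw [e1]
  rw [sum_comm]
  refine sum_congr rfl fun w _ => ?_
  rw [← mul_sum, sum_range_succ']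
  simp only [steps]
  ring

theorem pot_bound (hρ : 1 ≤ ρ) (hf : ∀ v, ∀ w ∈ imp v, f v < f w) {Δ : ℕ}
    (hΔ : ∀ v, (imp v).card ≤ Δ) (p : List V → V → ℝ)
    (h0 : ∀ h w, 0 ≤ p h w) (h1 : ∀ x h, ∑ w ∈ imp x, p (x :: h) w ≤ 1)
    (hb : ∀ x h, ∀ w ∈ imp x, p (x :: h) w * (imp x).card ≤ ρ) (N : ℕ) :
    ∀ (h : List V) (x : V), ∑ t ∈ range N, steps imp p (t + 1) h x ≤ pot f imp ρ Δ x := by
  induction N with
  | zero =>
    intro h x
    rw [range_zero, sum_empty]
    have := pot_step (q := fun _ => 0) hρ hf hΔ x (fun _ _ => le_rfl) (by simp)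
      (fun w _ => by simpa using (by linarith : (0 : ℝ) ≤ ρ))
    simpa using this
  | succ N ih =>
    intro h x
    rw [steps_succ_sum]
    refine le_trans ?_ (pot_step hρ hf hΔ x (p (x :: h)) (fun w _ => h0 _ w) (h1 x h) (hb x h))
    refine sum_le_sum fun w _ => ?_
    exact mul_le_mul_of_nonneg_left (by linarith [ih (x :: h) w]) (h0 _ w)

theorem pot_le (hρ : 1 ≤ ρ) {Δ : ℕ} (x : V) :
    pot f imp ρ Δ x ≤ exp 1 * ρ * (∑ v ∈ univ.filter (fun v => 0 < (imp v).card),
      1 / ((imp v).card : ℝ)) +
      (2 + log ρ) * (univ.filter (fun v => (imp v).card = 0)).card + log Δ := by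
  classical
  unfold pot
  have e1 : above f imp ρ x ≤ ∑ u, cost ρ (imp u).card := by
    unfold above
    exact sum_le_sum_of_subset_of_nonneg (subset_univ _) fun u _ _ => cost_nonneg hρ _
  have e2 : ∑ u, cost ρ (imp u).card =
      exp 1 * ρ * (∑ v ∈ univ.filter (fun v => 0 < (imp v).card), 1 / ((imp v).card : ℝ)) +
      (2 + log ρ) * (univ.filter (fun v => (imp v).card = 0)).card := by
    rw [← sum_filter_add_sum_filter_not univ (fun v => 0 < (imp v).card)]
    congr 1
    · rw [mul_sum]
      refine sum_congr rfl fun v hv => ?_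
      rw [mem_filter] at hv
      unfold cost
      rw [if_neg hv.2.ne']
      ring
    · simp only [not_lt, Nat.le_zero]
      rw [← nsmul_eq_mul', ← sum_const]
      refine sum_congr rfl fun v hv => ?_
      rw [mem_filter] at hv
      unfold cost
      rw [if_pos hv.2]
  have e3 : 0 ≤ log ((imp x).card : ℝ) := Real.log_natCast_nonneg _
  linarith

end

end Pool.Agent.H80.RE
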