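import Mathlib
set_option autoImplicit false

/-!
# Abstract objective functions on cubes and random pivot rules: definitions
-/

namespace Pool.Agent.H80.RE

open Finset

variable {n : ℕ}

/-- the neighbour of the vertex `x` of the `n`-cube in direction `i` -/
def flip (x : Fin n → Bool) (i : Fin n) : Fin n → Bool := Function.update x i (!x i)

/-- the set of improving directions at the vertex `x` -/
noncomputable def improving (f : (Fin n → Bool) → ℝ) (x : Fin n → Bool) : Finset (Fin n) :=
  univ.filter fun i => f x < f (flip x i)

/-- `f` has exactly one local maximum on every face -/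
def OneMax (f : (Fin n → Bool) → ℝ) : Prop :=
  ∀ (U : Finset (Fin n)) (x : Fin n → Bool), ∃! y : Fin n → Bool,
    (∀ i, i ∉ U → y i = x i) ∧ ∀ i ∈ U, f (flip y i) < f y

/-- `prob f p T h x` is the probability that the rule `p` makes at least `T` further steps from
the vertex `x` when it has visited the vertices `h` before: `p (x :: h) i` is the probability of the
direction `i`. -/
noncomputable def prob (f : (Fin n → Bool) → ℝ) (p : List (Fin n → Bool) → Fin n → ℝ) :
    ℕ → List (Fin n → Bool) → (Fin n → Bool) → ℝ
  | 0, _, _ => 1
  | T + 1, h, x => ∑ i ∈ improving f x, p (x :: h) i * prob f p T (x :: h) (flip x i)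

theorem flip_flip (x : Fin n → Bool) (i : Fin n) : flip (flip x i) i = x := by
  unfold flip
  simp

theorem flip_self (x : Fin n → Bool) (i : Fin n) : flip x i i = !x i := by
  simp [flip]

theorem flip_ne (x : Fin n → Bool) {i j : Fin n} (h : j ≠ i) : flip x i j = x j := by
  simp [flip, h]

theorem flip_ne_self (x : Fin n → Bool) (i : Fin n) : flip x i ≠ x := by
  intro h
  have := congrFun h i
  rw [flip_self] at this
  revert this
  cases x i <;> simp

theorem mem_improving {f : (Fin n → Bool) → ℝ} {x : Fin n → Bool} {i : Fin n} :
    i ∈ improving f x ↔ f x < f (flip x i) := by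
  simp [improving]

theorem mem_improving_flip {f : (Fin n → Bool) → ℝ} (hf : Function.Injective f)
    {x : Fin n → Bool} {i : Fin n} : i ∈ improving f (flip x i) ↔ i ∉ improving f x := by
  rw [mem_improving, mem_improving, flip_flip, not_lt]
  constructor
  · exact fun h => h.le
  · intro h
    exact lt_of_le_of_ne h fun e => flip_ne_self x i (hf e)

end Pool.Agent.H80.RE
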