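import Pool.Agent.H80.RE.Def
set_option autoImplicit false

/-!
# The entropy form of the edge isoperimetric inequality of the cube
-/

namespace Pool.Agent.H80.RE

open Finset Real

/-- `(a+b) log (a+b) - a log a - b log b` -/
noncomputable def e2 (a b : ℝ) : ℝ := negMulLog a + negMulLog b - negMulLog (a + b)

theorem e2_comm (a b : ℝ) : e2 a b = e2 b a := by
  unfold e2; rw [add_comm a b]; ring

theorem e2_eq {a b : ℝ} (h : 0 < a + b) :
    e2 a b = (a + b) * (negMulLog (a / (a + b)) + negMulLog (b / (a + b))) := by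
  have h1 : negMulLog a = (a / (a + b)) * negMulLog (a + b) + (a + b) * negMulLog (a / (a + b)) := by
    rw [← negMulLog_mul]
    congr 1
    field_simp
  have h2 : negMulLog b = (b / (a + b)) * negMulLog (a + b) + (a + b) * negMulLog (b / (a + b)) := by
    rw [← negMulLog_mul]
    congr 1
    field_simp
  have h3 : a / (a + b) + b / (a + b) = 1 := by
    rw [← add_div, div_self h.ne']
  unfold e2
  rw [h1, h2]
  have : a / (a + b) * negMulLog (a + b) + (a + b) * negMulLog (a / (a + b)) +
      (b / (a + b) * negMulLog (a + b) + (a + b) * negMulLog (b / (a + b))) - negMulLog (a + b)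
      = (a / (a + b) + b / (a + b) - 1) * negMulLog (a + b) +
        (a + b) * (negMulLog (a / (a + b)) + negMulLog (b / (a + b))) := by ring
  rw [this, h3]; ring

theorem e2_zero_zero : e2 0 0 = 0 := by simp [e2]

theorem e2_nonneg {a b : ℝ} (ha : 0 ≤ a) (hb : 0 ≤ b) : 0 ≤ e2 a b := by
  rcases (add_nonneg ha hb).eq_or_lt with h | h
  · have h1 : a = 0 := by linarith
    have h2 : b = 0 := by linarith
    rw [h1, h2, e2_zero_zero]
  · rw [e2_eq h]
    have h1 : a / (a + b) ≤ 1 := by rw [div_le_one h]; linarith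
    have h2 : b / (a + b) ≤ 1 := by rw [div_le_one h]; linarith
    have := negMulLog_nonneg (div_nonneg ha h.le) h1
    have := negMulLog_nonneg (div_nonneg hb h.le) h2
    positivity

theorem nml_conc {S S' a a' : ℝ} (hS : 0 < S) (hS' : 0 < S') (ha : 0 ≤ a) (ha' : 0 ≤ a') :
    S * negMulLog (a / S) + S' * negMulLog (a' / S') ≤
      (S + S') * negMulLog ((a + a') / (S + S')) := by
  have h := concaveOn_negMulLog.2 (Set.mem_Ici.2 (by positivity : (0 : ℝ) ≤ a / S))
    (Set.mem_Ici.2 (by positivity : (0 : ℝ) ≤ a' / S')) (by positivity : (0 : ℝ) ≤ S / (S + S'))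
    (by positivity : (0 : ℝ) ≤ S' / (S + S')) (by rw [← add_div, div_self (by positivity)])
  simp only [smul_eq_mul] at h
  have e1 : S / (S + S') * (a / S) + S' / (S + S') * (a' / S') = (a + a') / (S + S') := by
    field_simp
  rw [e1] at h
  have h2 := mul_le_mul_of_nonneg_left h (by positivity : 0 ≤ S + S')
  refine le_trans (le_of_eq ?_) h2
  field_simp

theorem e2_superadd {a b a' b' : ℝ} (ha : 0 ≤ a) (hb : 0 ≤ b) (ha' : 0 ≤ a') (hb' : 0 ≤ b') :
    e2 a b + e2 a' b' ≤ e2 (a + a') (b + b') := by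
  rcases (add_nonneg ha hb).eq_or_lt with h | h
  · have h1 : a = 0 := by linarith
    have h2 : b = 0 := by linarith
    rw [h1, h2, e2_zero_zero]; simp
  rcases (add_nonneg ha' hb').eq_or_lt with h' | h'
  · have h1 : a' = 0 := by linarith
    have h2 : b' = 0 := by linarith
    rw [h1, h2, e2_zero_zero]; simp
  rw [e2_eq h, e2_eq h', e2_eq (a := a + a') (b := b + b') (by linarith)]
  have e : a + a' + (b + b') = (a + b) + (a' + b') := by ring
  rw [e]
  have h1 := nml_conc h h' ha ha'
  have h2 := nml_conc h h' hb hb'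
  rw [mul_add, mul_add, mul_add]
  linarith

theorem e2_sum {ι : Type*} (s : Finset ι) (a b : ι → ℝ) (ha : ∀ i, 0 ≤ a i) (hb : ∀ i, 0 ≤ b i) :
    ∑ i ∈ s, e2 (a i) (b i) ≤ e2 (∑ i ∈ s, a i) (∑ i ∈ s, b i) := by
  classical
  induction s using Finset.induction_on with
  | empty => simp [e2_zero_zero]
  | insert i s hi ih =>
    rw [sum_insert hi, sum_insert hi, sum_insert hi]
    refine le_trans (add_le_add_right ih _) ?_
    exact e2_superadd (ha i) (hb i) (sum_nonneg fun _ _ => ha _) (sum_nonneg fun _ _ => hb _)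

theorem sum_cube_succ {n : ℕ} (F : (Fin (n + 1) → Bool) → ℝ) :
    ∑ v, F v = ∑ x : Fin n → Bool, F (Fin.cons false x) + ∑ x : Fin n → Bool, F (Fin.cons true x) := by
  rw [← (Fin.consEquiv (fun _ : Fin (n + 1) => Bool)).sum_comp, Fintype.sum_prod_type]
  simp [Fin.consEquiv, add_comm]

theorem flip_cons_zero {n : ℕ} (b : Bool) (x : Fin n → Bool) :
    flip (Fin.cons b x : Fin (n + 1) → Bool) 0 = (Fin.cons (!b) x : Fin (n + 1) → Bool) := by
  unfold flip
  funext i
  refine Fin.cases ?_ (fun j => ?_) i <;> simp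

theorem flip_cons_succ {n : ℕ} (b : Bool) (x : Fin n → Bool) (i : Fin n) :
    flip (Fin.cons b x : Fin (n + 1) → Bool) i.succ = (Fin.cons b (flip x i) : Fin (n + 1) → Bool) := by
  unfold flip
  funext j
  refine Fin.cases ?_ (fun k => ?_) j
  · simp [Function.update, (Fin.succ_ne_zero i).symm]
  · by_cases h : k = i
    · subst h; simp
    · simp [Function.update, h]

/-- **Edge isoperimetry with entropies.** -/
theorem edge_entropy : ∀ (n : ℕ) (g : (Fin n → Bool) → ℝ), (∀ v, 0 ≤ g v) →
    ∑ v, ∑ i, e2 (g v) (g (flip v i)) ≤ 2 * (∑ v, negMulLog (g v) - negMulLog (∑ v, g v)) := by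
  intro n
  induction n with
  | zero =>
    intro g _
    simp
  | succ n ih =>
    intro g hg
    have h0 := ih (fun x => g (Fin.cons false x)) fun _ => hg _
    have h1 := ih (fun x => g (Fin.cons true x)) fun _ => hg _
    have h2 := e2_sum univ (fun x : Fin n → Bool => g (Fin.cons false x))
      (fun x => g (Fin.cons true x)) (fun _ => hg _) (fun _ => hg _)
    rw [sum_cube_succ]
    simp only [Fin.sum_univ_succ, flip_cons_zero, flip_cons_succ, sum_add_distrib, Bool.not_false,
      Bool.not_true]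
    rw [sum_cube_succ (fun v => negMulLog (g v)), sum_cube_succ g]
    have h3 : ∑ x : Fin n → Bool, e2 (g (Fin.cons true x)) (g (Fin.cons false x)) =
        ∑ x : Fin n → Bool, e2 (g (Fin.cons false x)) (g (Fin.cons true x)) :=
      sum_congr rfl fun x _ => e2_comm _ _
    rw [h3]
    unfold e2 at h2 ⊢
    unfold e2 at h0 h1
    linarith

end Pool.Agent.H80.RE
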