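import Pool.Agent.H80.RE.Simple
set_option autoImplicit false

/-!
# Rules with bounded odds on arbitrary polytopes
-/

namespace Pool.Agent.H80.RE

open Finset Real

theorem above_le {V : Type} [Fintype V] {f : V → ℝ} {imp : V → Finset V} {ρ : ℝ} (hρ : 1 ≤ ρ)
    (x : V) : above f imp ρ x ≤
      exp 1 * ρ * (∑ v ∈ univ.filter (fun v => f x < f v ∧ 0 < (imp v).card),
        1 / ((imp v).card : ℝ)) +
      (2 + log ρ) * (univ.filter (fun v => (imp v).card = 0)).card := by
  classical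
  have hlog := Real.log_nonneg hρ
  unfold above
  rw [← sum_filter_add_sum_filter_not (univ.filter fun u => f x < f u)
    (fun v => 0 < (imp v).card), filter_filter, filter_filter]
  apply add_le_add
  · rw [mul_sum]
    apply le_of_eq
    refine sum_congr rfl fun v hv => ?_
    rw [mem_filter] at hv
    unfold cost
    rw [if_neg hv.2.2.ne']
    ring
  · have e1 : ∑ v ∈ univ.filter (fun v => f x < f v ∧ ¬ 0 < (imp v).card), cost ρ (imp v).card =
        ∑ v ∈ univ.filter (fun v => f x < f v ∧ ¬ 0 < (imp v).card), (2 + log ρ) := by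
      refine sum_congr rfl fun v hv => ?_
      rw [mem_filter] at hv
      unfold cost
      rw [if_pos (Nat.eq_zero_of_not_pos hv.2.2)]
    rw [e1, sum_const, nsmul_eq_mul, mul_comm]
    apply mul_le_mul_of_nonneg_left _ (by linarith)
    have : (univ.filter (fun v => f x < f v ∧ ¬ 0 < (imp v).card)).card ≤
        (univ.filter (fun v => (imp v).card = 0)).card := by
      apply card_le_card
      intro v hv
      rw [mem_filter] at hv ⊢
      exact ⟨mem_univ _, Nat.eq_zero_of_not_pos hv.2.2⟩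
    exact_mod_cast this

/-- the general bound -/
theorem general_bound {V : Type} [Fintype V] {f : V → ℝ} {imp : V → Finset V}
    (hf : ∀ v, ∀ w ∈ imp v, f v < f w) {D : ℕ} (hD : ∀ v, (imp v).card ≤ D) {ρ : ℝ} (hρ : 1 ≤ ρ)
    (p : List V → V → ℝ)
    (h0 : ∀ h w, 0 ≤ p h w) (h1 : ∀ x h, ∑ w ∈ imp x, p (x :: h) w ≤ 1)
    (hb : ∀ x h, ∀ w ∈ imp x, p (x :: h) w * (imp x).card ≤ ρ) (x : V) (N : ℕ) :
    ∑ t ∈ range N, steps imp p (t + 1) [] x ≤
      exp 1 * ρ * (∑ v ∈ univ.filter (fun v => f x < f v ∧ 0 < (imp v).card),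
        1 / ((imp v).card : ℝ)) +
      (2 + log ρ) * (univ.filter (fun v => (imp v).card = 0)).card + log D := by
  have e1 := pot_bound hρ hf hD p h0 h1 hb N [] x
  have e2 := above_le (f := f) (imp := imp) hρ x
  have e3 : 0 ≤ log ((imp x).card : ℝ) := Real.log_natCast_nonneg _
  unfold pot at e1
  linarith

/-- the bound for symmetric unimodal degree counts -/
theorem unimodal_bound {V : Type} [Fintype V] {f : V → ℝ} {imp : V → Finset V}
    (hf : ∀ v, ∀ w ∈ imp v, f v < f w) {d : ℕ} (hd : ∀ v, (imp v).card ≤ d)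
    (hs : (univ.filter fun v => (imp v).card = 0).card = 1)
    (hsym : ∀ k, k ≤ d → (univ.filter fun v => (imp v).card = k).card =
      (univ.filter fun v => (imp v).card = d - k).card)
    (huni : ∀ k, 2 * (k + 1) ≤ d → (univ.filter fun v => (imp v).card = k).card ≤
      (univ.filter fun v => (imp v).card = k + 1).card) {ρ : ℝ} (hρ : 1 ≤ ρ)
    (p : List V → V → ℝ)
    (h0 : ∀ h w, 0 ≤ p h w) (h1 : ∀ x h, ∑ w ∈ imp x, p (x :: h) w ≤ 1)
    (hb : ∀ x h, ∀ w ∈ imp x, p (x :: h) w * (imp x).card ≤ ρ) (x : V) (N : ℕ) :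
    ∑ t ∈ range N, steps imp p (t + 1) [] x ≤
      exp 1 * ρ * (Fintype.card V * (harmonic d + 3 / 2) / (d + 1)) + log d := by
  have e1 := general_bound hf hd hρ p h0 h1 hb x N
  rw [hs] at e1
  have e2 : ∑ v ∈ univ.filter (fun v => f x < f v ∧ 0 < (imp v).card), 1 / ((imp v).card : ℝ) ≤
      ∑ v ∈ univ.filter (fun v => 0 < (imp v).card), 1 / ((imp v).card : ℝ) := by
    apply sum_le_sum_of_subset_of_nonneg
    · intro v hv
      rw [mem_filter] at hv ⊢
      exact ⟨hv.1, hv.2.2⟩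
    · intro v _ _; positivity
  have e3 := e2.trans (simple_sum hd hs hsym huni)
  have he : (2.7182818283 : ℝ) < exp 1 := Real.exp_one_gt_d9
  have hlog : log ρ ≤ ρ - 1 := Real.log_le_sub_one_of_pos (by linarith)
  have e4 := mul_le_mul_of_nonneg_left e3 (by positivity : 0 ≤ exp 1 * ρ)
  have e5 : (2 : ℝ) * ρ ≤ exp 1 * ρ := mul_le_mul_of_nonneg_right (by linarith) (by linarith)
  rw [mul_sub] at e4
  push_cast at e1
  nlinarith

/-- the number of vertices with exactly `k` improving neighbours -/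
def count {V : Type} [Fintype V] (imp : V → Finset V) (k : ℕ) : ℕ :=
  (univ.filter fun v => (imp v).card = k).card

/-- both bounds -/
theorem digraph_bound (V : Type) [Fintype V] (f : V → ℝ) (imp : V → Finset V)
    (hf : ∀ v, ∀ w ∈ imp v, f v < f w) (ρ : ℝ) (hρ : 1 ≤ ρ) (p : List V → V → ℝ)
    (h0 : ∀ h w, 0 ≤ p h w) (h1 : ∀ x h, ∑ w ∈ imp x, p (x :: h) w ≤ 1)
    (hb : ∀ x h, ∀ w ∈ imp x, p (x :: h) w * (imp x).card ≤ ρ)
    (d : ℕ) (hd : ∀ v, (imp v).card ≤ d) (x : V) (N : ℕ) :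
    ∑ t ∈ range N, steps imp p (t + 1) [] x ≤
      exp 1 * ρ * (∑ v ∈ univ.filter (fun v => f x < f v ∧ 0 < (imp v).card),
        1 / ((imp v).card : ℝ)) + (2 + log ρ) * count imp 0 + log d ∧
    (count imp 0 = 1 → (∀ k, k ≤ d → count imp k = count imp (d - k)) →
      (∀ k, 2 * (k + 1) ≤ d → count imp k ≤ count imp (k + 1)) →
      ∑ t ∈ range N, steps imp p (t + 1) [] x ≤
        exp 1 * ρ * (Fintype.card V * (harmonic d + 3 / 2) / (d + 1)) + log d) :=
  ⟨general_bound hf hd hρ p h0 h1 hb x N,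
    fun hs hsym huni => unimodal_bound hf hd hs hsym huni hρ p h0 h1 hb x N⟩

end Pool.Agent.H80.RE
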