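import Pool.Agent.H80.RE.Main
set_option autoImplicit false

/-!
# Random-Edge and rules with memory
-/

namespace Pool.Agent.H80.RE

open Finset Real Filter Topology

variable {n : ℕ}

/-- a rule with memory as a walk -/
noncomputable def ruleWalk (f : (Fin n → Bool) → ℝ) (ρ : ℝ) (p : List (Fin n → Bool) → Fin n → ℝ)
    (h0 : ∀ h i, 0 ≤ p h i) (h1 : ∀ x h, ∑ i ∈ improving f x, p (x :: h) i ≤ 1)
    (hb : ∀ x h, ∀ i ∈ improving f x, p (x :: h) i * (improving f x).card ≤ ρ) :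
    Walk f ρ ((Fin n → Bool) × List (Fin n → Bool)) where
  X σ := σ.1
  nxt σ i := (flip σ.1 i, σ.1 :: σ.2)
  q σ i := p (σ.1 :: σ.2) i
  hX _ _ _ := rfl
  q0 _ _ := h0 _ _
  q1 σ := h1 σ.1 σ.2
  qb σ i hi := hb σ.1 σ.2 i hi

theorem prob_eq (f : (Fin n → Bool) → ℝ) (ρ : ℝ) (p : List (Fin n → Bool) → Fin n → ℝ)
    (h0 : ∀ h i, 0 ≤ p h i) (h1 : ∀ x h, ∑ i ∈ improving f x, p (x :: h) i ≤ 1)
    (hb : ∀ x h, ∀ i ∈ improving f x, p (x :: h) i * (improving f x).card ≤ ρ) (T : ℕ)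
    (h : List (Fin n → Bool)) (x : Fin n → Bool) :
    prob f p T h x = ((ruleWalk f ρ p h0 h1 hb).P ^ T) 1 (x, h) := by
  induction T generalizing h x with
  | zero => simp [prob]
  | succ T ih =>
    rw [prob, pow_succ', Module.End.mul_apply, Walk.P_apply]
    refine sum_congr rfl fun i _ => ?_
    rw [ih]
    rfl

theorem rule_bound {ρ ε : ℝ} (hρ : 1 ≤ ρ) (hε : 0 < ε) : ∃ C : ℝ, ∀ (n : ℕ)
    (f : (Fin n → Bool) → ℝ), Function.Injective f → OneMax f →
    ∀ p : List (Fin n → Bool) → Fin n → ℝ, (∀ h i, 0 ≤ p h i) →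
      (∀ x h, ∑ i ∈ improving f x, p (x :: h) i ≤ 1) →
      (∀ x h, ∀ i ∈ improving f x, p (x :: h) i * (improving f x).card ≤ ρ) →
      ∀ (x : Fin n → Bool) (N : ℕ),
        ∑ t ∈ range N, prob f p (t + 1) [] x ≤ C * (1 + 4 ^ (-(1 / ρ)) + ε) ^ n := by
  have hR : 1 + exp (-(2 * log 2 / ρ)) < 1 + 4 ^ (-(1 / ρ)) + ε := by
    have e1 : (4 : ℝ) ^ (-(1 / ρ)) = exp (-(2 * log 2 / ρ)) := by
      rw [Real.rpow_def_of_pos (by norm_num)]
      congr 1
      have : log 4 = 2 * log 2 := by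
        rw [show (4 : ℝ) = 2 ^ 2 by norm_num, Real.log_pow]; norm_num
      rw [this]; ring
    rw [e1]; linarith
  obtain ⟨C, hC⟩ := main hρ hR
  refine ⟨C, fun n f hf hm p h0 h1 hb x N => ?_⟩
  refine le_trans ?_ (hC n f hf hm _ (ruleWalk f ρ p h0 h1 hb) (N + 1) (x, []))
  unfold Walk.occ
  rw [sum_range_succ']
  have h2 : ∑ t ∈ range N, prob f p (t + 1) [] x =
      ∑ t ∈ range N, ((ruleWalk f ρ p h0 h1 hb).P ^ (t + 1)) 1 (x, []) :=
    sum_congr rfl fun t _ => prob_eq f ρ p h0 h1 hb (t + 1) [] x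
  rw [h2]
  simp

/-- Random-Edge as a walk -/
noncomputable def edgeWalk (f : (Fin n → Bool) → ℝ) : Walk f 1 (Fin n → Bool) where
  X x := x
  nxt x i := flip x i
  q x _ := 1 / (improving f x).card
  hX _ _ _ := rfl
  q0 _ _ := by positivity
  q1 x := by
    rw [sum_const, nsmul_eq_mul]
    rcases Nat.eq_zero_or_pos (improving f x).card with h | h
    · rw [h]; simp
    · have : ((improving f x).card : ℝ) ≠ 0 := by exact_mod_cast h.ne'
      rw [mul_one_div_cancel this]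
  qb x i hi := by
    have : ((improving f x).card : ℝ) ≠ 0 := by
      exact_mod_cast (card_pos.2 ⟨i, hi⟩).ne'
    rw [one_div_mul_cancel this]

/-- `T x` is the expected number of steps of Random-Edge from `x` -/
def RandomEdge (f : (Fin n → Bool) → ℝ) (T : (Fin n → Bool) → ℝ) : Prop :=
  ∀ x, (improving f x = ∅ → T x = 0) ∧ ((improving f x).Nonempty →
    T x = 1 + (∑ i ∈ improving f x, T (flip x i)) / (improving f x).card)

theorem randomEdge_eq {f : (Fin n → Bool) → ℝ} {T : (Fin n → Bool) → ℝ} (hT : RandomEdge f T) :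
    T = (edgeWalk f).P 1 + (edgeWalk f).P T := by
  funext x
  rw [Pi.add_apply, Walk.P_apply, Walk.P_apply]
  show T x = ∑ i ∈ improving f x, 1 / ((improving f x).card : ℝ) * 1 +
    ∑ i ∈ improving f x, 1 / ((improving f x).card : ℝ) * T (flip x i)
  rcases (improving f x).eq_empty_or_nonempty with h | h
  · rw [(hT x).1 h, h]; simp
  · rw [(hT x).2 h, ← mul_sum, ← mul_sum]
    have : ((improving f x).card : ℝ) ≠ 0 := by exact_mod_cast (card_pos.2 h).ne'
    rw [sum_const, nsmul_eq_mul]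
    field_simp

theorem randomEdge_iter {f : (Fin n → Bool) → ℝ} {T : (Fin n → Bool) → ℝ} (hT : RandomEdge f T)
    (N : ℕ) (x : Fin n → Bool) :
    T x = ∑ t ∈ range N, ((edgeWalk f).P ^ (t + 1)) 1 x + ((edgeWalk f).P ^ N) T x := by
  induction N with
  | zero => simp
  | succ N ih =>
    have h1 : ((edgeWalk f).P ^ N) T x = ((edgeWalk f).P ^ (N + 1)) 1 x +
        ((edgeWalk f).P ^ (N + 1)) T x := by
      conv_lhs => rw [randomEdge_eq hT]
      rw [map_add, Pi.add_apply, pow_succ, Module.End.mul_apply, Module.End.mul_apply]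
    rw [sum_range_succ, ih]
    linarith

theorem edge_bound {ε : ℝ} (hε : 0 < ε) : ∃ C : ℝ, ∀ (n : ℕ)
    (f : (Fin n → Bool) → ℝ), Function.Injective f → OneMax f →
    ∀ T : (Fin n → Bool) → ℝ, RandomEdge f T → ∀ x, T x ≤ C * (5 / 4 + ε) ^ n := by
  have hR : 1 + exp (-(2 * log 2 / 1)) < 5 / 4 + ε := by
    have e1 : exp (-(2 * log 2 / 1)) = 1 / 4 := by
      rw [div_one, show -(2 * log 2) = log (1 / 4) by
        rw [one_div, Real.log_inv, show (4 : ℝ) = 2 ^ 2 by norm_num, Real.log_pow]; norm_num]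
      rw [Real.exp_log (by norm_num)]
    rw [e1]; linarith
  obtain ⟨C, hC⟩ := main le_rfl hR
  refine ⟨C, fun n f hf hm T hT x => ?_⟩
  set W := edgeWalk f with hW
  -- the tail
  have hsum : Summable fun t => (W.P ^ t) 1 x := by
    apply summable_of_sum_range_le (c := 2 ^ n)
    · intro t; exact W.Pj_nonneg t (fun _ => zero_le_one) x
    · intro N; exact W.occ_one_le N x
  have hlim := hsum.tendsto_atTop_zero
  obtain ⟨B, hB⟩ : ∃ B : ℝ, ∀ y, T y ≤ B := by
    refine ⟨∑ y, |T y|, fun y => (le_abs_self _).trans ?_⟩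
    exact single_le_sum (f := fun y => |T y|) (fun _ _ => abs_nonneg _) (mem_univ y)
  have h2 : ∀ N, T x ≤ C * (5 / 4 + ε) ^ n + B * (W.P ^ N) 1 x := by
    intro N
    rw [randomEdge_iter hT N x]
    apply add_le_add
    · refine le_trans ?_ (hC n f hf hm _ W (N + 1) x)
      unfold Walk.occ
      rw [sum_range_succ']
      simp [hW]
    · have h3 : T ≤ B • (1 : (Fin n → Bool) → ℝ) := by
        intro y; simpa using hB y
      have h4 := W.Pj_mono N h3 x
      rw [map_smul] at h4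
      simpa using h4
  have h3 : Tendsto (fun N => C * (5 / 4 + ε) ^ n + B * (W.P ^ N) 1 x) atTop
      (𝓝 (C * (5 / 4 + ε) ^ n + B * 0)) := tendsto_const_nhds.add (hlim.const_mul B)
  rw [mul_zero, add_zero] at h3
  exact ge_of_tendsto' h3 h2

end Pool.Agent.H80.RE
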