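import Pool.Agent.H80.RE.Ent
set_option autoImplicit false

/-!
# The two-point inequality
-/

namespace Pool.Agent.H80.RE

open Finset Real

theorem two_rpow_le {y : ℝ} (h0 : 0 ≤ y) (h1 : y ≤ 1) : y * log 2 ≤ log (1 + y) := by
  have h := rpow_one_add_le_one_add_mul_self (s := 1) (p := y) (by norm_num) h0 h1
  have h2 : (1 : ℝ) + 1 = 2 := by norm_num
  rw [h2, mul_one] at h
  have h3 := Real.log_le_log (by positivity) h
  rwa [Real.log_rpow (by norm_num)] at h3

theorem le_two_rpow {y : ℝ} (h1 : 1 ≤ y) : log (1 + y) ≤ y * log 2 := by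
  have h := one_add_mul_self_le_rpow_one_add (s := 1) (p := y) (by norm_num) h1
  have h2 : (1 : ℝ) + 1 = 2 := by norm_num
  rw [h2, mul_one] at h
  have h3 := Real.log_le_log (by positivity) h
  rwa [Real.log_rpow (by norm_num)] at h3

/-- the auxiliary function -/
noncomputable def G (r : ℝ) : ℝ := (1 + r) * log (1 + r) - r * log r - log 2 * (2 + log r)

theorem G_one : G 1 = 0 := by
  unfold G
  have : (1 : ℝ) + 1 = 2 := by norm_num
  rw [this, Real.log_one]; ring

theorem G_deriv {r : ℝ} (hr : 0 < r) :
    HasDerivAt G (log (1 + 1 / r) - 1 / r * log 2) r := by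
  have h1 : HasDerivAt (fun r : ℝ => (1 + r)) 1 r := by
    simpa using (hasDerivAt_id r).const_add 1
  have h2 : HasDerivAt (fun r : ℝ => log (1 + r)) (1 / (1 + r)) r := by
    have := h1.log (by positivity)
    simpa using this
  have h3 := h1.mul h2
  have h4 : HasDerivAt (fun r : ℝ => r * log r) (1 * log r + r * r⁻¹) r :=
    (hasDerivAt_id r).mul (Real.hasDerivAt_log hr.ne')
  have h5 : HasDerivAt (fun r : ℝ => log 2 * (2 + log r)) (log 2 * r⁻¹) r :=
    ((Real.hasDerivAt_log hr.ne').const_add 2).const_mul _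
  have h6 := (h3.sub h4).sub h5
  have e : log (1 + 1 / r) = log (1 + r) - log r := by
    rw [← Real.log_div (by positivity) hr.ne']
    congr 1; field_simp; ring
  refine (h6.congr_deriv ?_).congr_of_eventuallyEq ?_
  · rw [e]
    field_simp
    ring
  · exact Filter.Eventually.of_forall fun x => by simp [G]

theorem G_nonneg {r : ℝ} (hr : 0 < r) : 0 ≤ G r := by
  rcases le_total 1 r with h | h
  · have hm : MonotoneOn G (Set.Ici 1) := by
      apply monotoneOn_of_deriv_nonneg (convex_Ici 1)
      · intro x hx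
        exact (G_deriv (lt_of_lt_of_le one_pos hx)).continuousAt.continuousWithinAt
      · intro x hx
        rw [interior_Ici] at hx
        exact (G_deriv (lt_trans one_pos hx)).differentiableAt.differentiableWithinAt
      · intro x hx
        rw [interior_Ici] at hx
        have hx0 : 0 < x := lt_trans one_pos hx
        rw [(G_deriv hx0).deriv]
        have := two_rpow_le (y := 1 / x) (by positivity) (by
          rw [div_le_one hx0]; exact le_of_lt hx)
        linarith
    have := hm (Set.mem_Ici.2 le_rfl) (Set.mem_Ici.2 h) h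
    rwa [G_one] at this
  · have hm : AntitoneOn G (Set.Ioc 0 1) := by
      apply antitoneOn_of_deriv_nonpos (convex_Ioc 0 1)
      · intro x hx
        exact (G_deriv hx.1).continuousAt.continuousWithinAt
      · intro x hx
        rw [interior_Ioc] at hx
        exact (G_deriv hx.1).differentiableAt.differentiableWithinAt
      · intro x hx
        rw [interior_Ioc] at hx
        have hx0 : 0 < x := hx.1
        rw [(G_deriv hx0).deriv]
        have := le_two_rpow (y := 1 / x) (by
          rw [le_div_iff₀ hx0]; linarith [hx.2])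
        linarith
    have := hm (Set.mem_Ioc.2 ⟨hr, h⟩) (Set.mem_Ioc.2 ⟨one_pos, le_rfl⟩) h
    rwa [G_one] at this

theorem e2_one {r : ℝ} : e2 1 r = (1 + r) * log (1 + r) - r * log r := by
  unfold e2 negMulLog
  rw [Real.log_one]; ring

/-- the tangent inequality -/
theorem e2_one_ge {r : ℝ} (hr : 0 < r) : log 2 * (2 + log r) ≤ e2 1 r := by
  have := G_nonneg hr
  unfold G at this
  rw [e2_one]
  linarith

theorem e2_scale (a r : ℝ) : e2 a (a * r) = a * e2 1 r := by
  unfold e2
  rw [show a + a * r = a * (1 + r) by ring, negMulLog_mul a r, negMulLog_mul a (1 + r),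
    negMulLog_one]
  ring

theorem exp_sub_one_le {y : ℝ} (h : |y| ≤ 1) : exp y - 1 ≤ y + y ^ 2 := by
  have := Real.abs_exp_sub_one_sub_id_le h
  have := (abs_le.1 this).2
  linarith

/-- the scalar inequality -/
theorem scalar {s τ : ℝ} (hs : 0 < s) (hs9 : s ≤ 1 / 9) (hτ : 3 ≤ τ) (hsτ : s * τ ≤ 1) {r : ℝ}
    (hr : 0 ≤ r) (hrτ : r ≤ exp τ) :
    (2 * log 2 - (1 + s) * log 2 * s * τ ^ 2 - (1 + s) * log 2 / s) +
      (1 + s) * log 2 / s * r ^ s ≤ e2 1 (r ^ (1 + s)) := by
  have hl : 0 < log 2 := Real.log_pos (by norm_num)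
  set c := (1 + s) * log 2 / s with hc
  have hcs : c * s = (1 + s) * log 2 := by
    rw [hc]; field_simp
  have hc0 : 0 < c := by positivity
  have hc2 : 2 * log 2 ≤ c := by
    rw [hc, le_div_iff₀ hs]
    nlinarith
  have hη : 0 ≤ (1 + s) * log 2 * s * τ ^ 2 := by positivity
  rcases hr.eq_or_lt with h0 | h0
  · rw [← h0, Real.zero_rpow hs.ne', Real.zero_rpow (by positivity)]
    have : e2 1 0 = 0 := by rw [e2_one]; simp
    rw [this]
    nlinarith
  · have hrs : r ^ s = exp (s * log r) := by
      rw [Real.rpow_def_of_pos h0]; ring_nf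
    have htle : log r ≤ τ := by
      rw [← Real.log_exp τ]
      exact Real.log_le_log h0 hrτ
    rcases le_total (-3) (log r) with ht | ht
    · have habs : |s * log r| ≤ 1 := by
        rw [abs_le]
        constructor
        · nlinarith
        · nlinarith
      have h1 := exp_sub_one_le habs
      have h2 := e2_one_ge (r := r ^ (1 + s)) (by positivity)
      rw [Real.log_rpow h0] at h2
      have h3 : (log r) ^ 2 ≤ τ ^ 2 := by
        apply sq_le_sq'
        · linarith
        · exact htle
      rw [hrs]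
      have h4 : c * (exp (s * log r) - 1) ≤ c * (s * log r + (s * log r) ^ 2) :=
        mul_le_mul_of_nonneg_left h1 hc0.le
      have h5 : c * (s * log r + (s * log r) ^ 2) =
          (1 + s) * log 2 * (log r + s * (log r) ^ 2) := by
        rw [← hcs]; ring
      have h6 : (1 + s) * log 2 * (log r + s * (log r) ^ 2) ≤
          (1 + s) * log 2 * (log r + s * τ ^ 2) := by
        apply mul_le_mul_of_nonneg_left _ (by positivity)
        nlinarith
      nlinarith
    · have h1 : exp (s * log r) ≤ exp (s * (-3)) := by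
        apply Real.exp_le_exp.2
        nlinarith
      have habs : |s * (-3)| ≤ 1 := by
        rw [abs_le]; constructor <;> linarith
      have h2 := exp_sub_one_le habs
      have h3 := e2_nonneg (a := 1) (b := r ^ (1 + s)) zero_le_one (by positivity)
      rw [hrs]
      have h4 : c * (exp (s * log r) - 1) ≤ c * (s * (-3) + (s * (-3)) ^ 2) :=
        mul_le_mul_of_nonneg_left (by linarith) hc0.le
      have h5 : c * (s * (-3) + (s * (-3)) ^ 2) = (1 + s) * log 2 * (-3 + 9 * s) := by
        rw [← hcs]; ring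
      have h6 : (1 + s) * log 2 * (-3 + 9 * s) ≤ - 2 * log 2 := by
        have : 0 ≤ log 2 * s := by positivity
        nlinarith
      nlinarith

/-- the inequality for an edge -/
theorem edge_ineq {s τ : ℝ} (hs : 0 < s) (hs9 : s ≤ 1 / 9) (hτ : 3 ≤ τ) (hsτ : s * τ ≤ 1)
    {a b : ℝ} (ha : 0 < a) (hb : 0 ≤ b) (hab : b ≤ exp τ * a) :
    (2 * log 2 - (1 + s) * log 2 * s * τ ^ 2 - (1 + s) * log 2 / s) * a ^ (1 + s) +
      (1 + s) * log 2 / s * (a * b ^ s) ≤ e2 (a ^ (1 + s)) (b ^ (1 + s)) := by
  have h := scalar hs hs9 hτ hsτ (r := b / a) (by positivity) (by rwa [div_le_iff₀ ha])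
  have h1 : b ^ (1 + s) = a ^ (1 + s) * (b / a) ^ (1 + s) := by
    rw [← Real.mul_rpow ha.le (by positivity)]
    congr 1; field_simp
  have h2 : a * b ^ s = a ^ (1 + s) * (b / a) ^ s := by
    rw [Real.rpow_add ha, Real.rpow_one, mul_assoc, ← Real.mul_rpow ha.le (by positivity)]
    congr 2; field_simp
  rw [h1, h2, e2_scale]
  have := mul_le_mul_of_nonneg_left h (by positivity : 0 ≤ a ^ (1 + s))
  refine le_trans (le_of_eq ?_) this
  ring

end Pool.Agent.H80.RE
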