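import Pool.Agent.H80.RE.Dag
set_option autoImplicit false

/-!
# Symmetric unimodal degree counts (simple polytopes)
-/

namespace Pool.Agent.H80.RE

open Finset Real

/-- the weights `3/2, 1, 1/2, 1/3, …` -/
noncomputable def wt (k : ℕ) : ℝ := if k = 0 then 3 / 2 else 1 / k

theorem wt_zero : wt 0 = 3 / 2 := by simp [wt]

theorem wt_pos {k : ℕ} (h : 0 < k) : wt k = 1 / k := by
  unfold wt; rw [if_neg h.ne']

theorem wt_step {d k : ℕ} (h : 2 * (k + 1) ≤ d) :
    wt (k + 1) + wt (d - (k + 1)) ≤ wt k + wt (d - k) := by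
  rcases Nat.eq_zero_or_pos k with rfl | hk
  · have h1 : 0 < d - (0 + 1) := by omega
    have h2 : 0 < d - 0 := by omega
    rw [wt_zero, wt_pos (Nat.succ_pos 0), wt_pos h1, wt_pos h2]
    have h3 : (1 : ℝ) ≤ ((d - (0 + 1) : ℕ) : ℝ) := by exact_mod_cast h1
    have h4 : ((d - 0 : ℕ) : ℝ) = ((d - (0 + 1) : ℕ) : ℝ) + 1 := by
      have : d - 0 = d - (0 + 1) + 1 := by omega
      rw [this]; push_cast; ring
    rw [h4]
    set y : ℝ := ((d - (0 + 1) : ℕ) : ℝ)
    have h5 : 1 / y - 1 / (y + 1) ≤ 1 / 2 := by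
      rw [div_sub_div _ _ (by positivity) (by positivity), div_le_div_iff₀ (by positivity) (by norm_num)]
      nlinarith
    norm_num
    norm_num at h5
    linarith
  · have h1 : 0 < d - (k + 1) := by omega
    have h2 : 0 < d - k := by omega
    rw [wt_pos (Nat.succ_pos k), wt_pos hk, wt_pos h1, wt_pos h2]
    have h3 : (k : ℝ) ≤ ((d - (k + 1) : ℕ) : ℝ) := by exact_mod_cast (by omega : k ≤ d - (k + 1))
    have h4 : ((d - k : ℕ) : ℝ) = ((d - (k + 1) : ℕ) : ℝ) + 1 := by
      have : d - k = d - (k + 1) + 1 := by omega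
      rw [this]; push_cast; ring
    rw [h4]
    set y : ℝ := ((d - (k + 1) : ℕ) : ℝ)
    have hk' : (0 : ℝ) < k := by exact_mod_cast hk
    have hy : 0 < y := hk'.trans_le h3
    push_cast
    have h5 : 1 / y - 1 / (y + 1) ≤ 1 / (k : ℝ) - 1 / ((k : ℝ) + 1) := by
      rw [div_sub_div _ _ (by positivity) (by positivity),
        div_sub_div _ _ (by positivity) (by positivity), div_le_div_iff₀ (by positivity) (by positivity)]
      nlinarith [mul_pos hk' hy]
    linarith

/-- Chebyshev's inequality for symmetric unimodal sequences -/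
theorem cheb {d : ℕ} (a : ℕ → ℝ) (hsym : ∀ k, k ≤ d → a k = a (d - k))
    (huni : ∀ k, 2 * (k + 1) ≤ d → a k ≤ a (k + 1)) :
    (d + 1 : ℝ) * ∑ k ∈ range (d + 1), a k * wt k ≤
      (∑ k ∈ range (d + 1), a k) * ∑ k ∈ range (d + 1), wt k := by
  set b : ℕ → ℝ := fun k => (wt k + wt (d - k)) / 2 with hb
  have hbs : ∀ k, k ≤ d → b k = b (d - k) := by
    intro k hk
    simp only [hb]
    rw [Nat.sub_sub_self hk]; ring
  have hrefl : ∀ g : ℕ → ℝ, ∑ k ∈ range (d + 1), g (d - k) = ∑ k ∈ range (d + 1), g k := by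
    intro g
    have := sum_range_reflect g (d + 1)
    simpa using this
  have e1 : ∑ k ∈ range (d + 1), a k * wt k = ∑ k ∈ range (d + 1), a k * b k := by
    have e2 : ∑ k ∈ range (d + 1), a k * wt (d - k) = ∑ k ∈ range (d + 1), a k * wt k := by
      rw [← hrefl (fun k => a k * wt k)]
      refine sum_congr rfl fun k hk => ?_
      rw [hsym k (by rw [mem_range] at hk; omega)]
    simp only [hb]
    have : ∑ k ∈ range (d + 1), a k * ((wt k + wt (d - k)) / 2) =
        (∑ k ∈ range (d + 1), a k * wt k + ∑ k ∈ range (d + 1), a k * wt (d - k)) / 2 := by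
      rw [← sum_add_distrib, sum_div]
      refine sum_congr rfl fun k _ => by ring
    rw [this, e2]; ring
  have e3 : ∑ k ∈ range (d + 1), wt k = ∑ k ∈ range (d + 1), b k := by
    simp only [hb]
    rw [← sum_div, sum_add_distrib, hrefl wt]; ring
  have amono : ∀ i j, i ≤ j → 2 * j ≤ d → a i ≤ a j := by
    intro i j hij
    induction j, hij using Nat.le_induction with
    | base => intro _; exact le_rfl
    | succ j _ ih => intro h; exact (ih (by omega)).trans (huni j h)
  have banti : ∀ i j, i ≤ j → 2 * j ≤ d → b j ≤ b i := by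
    intro i j hij
    induction j, hij using Nat.le_induction with
    | base => intro _; exact le_rfl
    | succ j _ ih =>
      intro h
      refine le_trans ?_ (ih (by omega))
      simp only [hb]
      have := wt_step h
      linarith
  have hanti : AntivaryOn a b (range (d + 1) : Set ℕ) := by
    intro i hi j hj hlt
    rw [mem_coe, mem_range] at hi hj
    obtain ⟨i', hi', hai, hbi⟩ : ∃ i', 2 * i' ≤ d ∧ a i = a i' ∧ b i = b i' := by
      rcases le_total (2 * i) d with h | h
      · exact ⟨i, h, rfl, rfl⟩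
      · exact ⟨d - i, by omega, hsym i (by omega), hbs i (by omega)⟩
    obtain ⟨j', hj', haj, hbj⟩ : ∃ j', 2 * j' ≤ d ∧ a j = a j' ∧ b j = b j' := by
      rcases le_total (2 * j) d with h | h
      · exact ⟨j, h, rfl, rfl⟩
      · exact ⟨d - j, by omega, hsym j (by omega), hbs j (by omega)⟩
    rw [hbi, hbj] at hlt
    rw [hai, haj]
    rcases le_total j' i' with h | h
    · exact amono j' i' h hi'
    · exact absurd (banti i' j' h hj') (not_le.2 hlt)
  have := hanti.card_mul_sum_le_sum_mul_sum
  rw [card_range] at this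
  rw [e1, e3]
  push_cast at this
  linarith

theorem sum_wt (d : ℕ) : ∑ k ∈ range (d + 1), wt k = 3 / 2 + (harmonic d : ℝ) := by
  rw [sum_range_succ', wt_zero, harmonic]
  push_cast
  rw [add_comm]
  congr 1
  refine sum_congr rfl fun k _ => ?_
  rw [wt_pos (Nat.succ_pos k), one_div]
  push_cast; rfl

variable {V : Type} [Fintype V] {imp : V → Finset V}

theorem simple_sum {d : ℕ} (hcard : ∀ v, (imp v).card ≤ d)
    (h0 : (univ.filter fun v => (imp v).card = 0).card = 1)
    (hsym : ∀ k, k ≤ d → (univ.filter fun v => (imp v).card = k).card =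
      (univ.filter fun v => (imp v).card = d - k).card)
    (huni : ∀ k, 2 * (k + 1) ≤ d → (univ.filter fun v => (imp v).card = k).card ≤
      (univ.filter fun v => (imp v).card = k + 1).card) :
    ∑ v ∈ univ.filter (fun v => 0 < (imp v).card), 1 / ((imp v).card : ℝ) ≤
      Fintype.card V * (harmonic d + 3 / 2) / (d + 1) - 3 / 2 := by
  classical
  have e0 : ∀ g : ℕ → ℝ, ∑ v, g (imp v).card =
      ∑ k ∈ range (d + 1), ((univ.filter fun v => (imp v).card = k).card : ℝ) * g k := by
    intro g
    rw [← sum_fiberwise_of_maps_to (s := univ) (t := range (d + 1)) (g := fun v => (imp v).card)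
      (fun v _ => mem_range.2 (Nat.lt_succ_of_le (hcard v)))]
    refine sum_congr rfl fun k _ => ?_
    rw [← nsmul_eq_mul, ← sum_const]
    refine sum_congr rfl fun v hv => ?_
    rw [(mem_filter.1 hv).2]
  have e1 := cheb (d := d) (fun k => ((univ.filter fun v => (imp v).card = k).card : ℝ))
    (fun k hk => by exact_mod_cast hsym k hk) (fun k hk => by exact_mod_cast huni k hk)
  have e2 : ∑ k ∈ range (d + 1), ((univ.filter fun v => (imp v).card = k).card : ℝ) =
      Fintype.card V := by
    have := e0 (fun _ => 1)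
    simp only [mul_one] at this
    rw [← this]; simp
  rw [e2, sum_wt, ← e0 wt] at e1
  have e3 : ∑ v, wt (imp v).card = 3 / 2 +
      ∑ v ∈ univ.filter (fun v => 0 < (imp v).card), 1 / ((imp v).card : ℝ) := by
    rw [← sum_filter_add_sum_filter_not univ (fun v => 0 < (imp v).card), add_comm]
    congr 1
    · simp only [not_lt, Nat.le_zero]
      have : ∑ v ∈ univ.filter (fun v => (imp v).card = 0), wt (imp v).card =
          ∑ v ∈ univ.filter (fun v => (imp v).card = 0), (3 / 2 : ℝ) :=
        sum_congr rfl fun v hv => by rw [(mem_filter.1 hv).2, wt_zero]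
      rw [this, sum_const, h0, one_smul]
    · exact sum_congr rfl fun v hv => wt_pos (mem_filter.1 hv).2
  rw [e3] at e1
  have hd : (0 : ℝ) < d + 1 := by positivity
  rw [le_sub_iff_add_le, le_div_iff₀ hd]
  linarith

end Pool.Agent.H80.RE
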