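import Pool.Agent.H80.RE.Wind
set_option autoImplicit false

/-!
# The walk skips many vertices
-/

namespace Pool.Agent.H80.RE

open Finset Real

variable {n : ℕ} {f : (Fin n → Bool) → ℝ} {ρ : ℝ} {S : Type}

/-- the expected sum of `g` over the first `N` states of the walk -/
noncomputable def Walk.occ (W : Walk f ρ S) (N : ℕ) (σ0 : S) (g : S → ℝ) : ℝ :=
  ∑ t ∈ range N, (W.P ^ t) g σ0

theorem Walk.occ_mono (W : Walk f ρ S) (N : ℕ) (σ0 : S) {g h : S → ℝ} (hgh : g ≤ h) :
    W.occ N σ0 g ≤ W.occ N σ0 h :=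
  sum_le_sum fun t _ => W.Pj_mono t hgh σ0

theorem Walk.occ_add (W : Walk f ρ S) (N : ℕ) (σ0 : S) (g h : S → ℝ) :
    W.occ N σ0 (g + h) = W.occ N σ0 g + W.occ N σ0 h := by
  unfold Walk.occ
  rw [← sum_add_distrib]
  exact sum_congr rfl fun t _ => by rw [map_add]; rfl

theorem Walk.occ_smul (W : Walk f ρ S) (N : ℕ) (σ0 : S) (c : ℝ) (g : S → ℝ) :
    W.occ N σ0 (c • g) = c * W.occ N σ0 g := by
  unfold Walk.occ
  rw [mul_sum]
  exact sum_congr rfl fun t _ => by rw [map_smul]; rfl

theorem Walk.occ_sum (W : Walk f ρ S) (N : ℕ) (σ0 : S) {ι : Type*} (s : Finset ι) (g : ι → S → ℝ) :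
    W.occ N σ0 (∑ i ∈ s, g i) = ∑ i ∈ s, W.occ N σ0 (g i) := by
  unfold Walk.occ
  rw [sum_comm]
  exact sum_congr rfl fun t _ => by rw [map_sum, Finset.sum_apply]

theorem Walk.occ_nonneg (W : Walk f ρ S) (N : ℕ) (σ0 : S) {g : S → ℝ} (hg : 0 ≤ g) :
    0 ≤ W.occ N σ0 g := sum_nonneg fun t _ => W.Pj_nonneg t hg σ0

theorem Walk.Pj_Pj (W : Walk f ρ S) (t j : ℕ) (g : S → ℝ) :
    (W.P ^ t) ((W.P ^ j) g) = (W.P ^ (t + j)) g := by
  rw [pow_add, Module.End.mul_apply]

/-- shifting the time -/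
theorem Walk.occ_shift_le (W : Walk f ρ S) (N j : ℕ) (σ0 : S) {g : S → ℝ} (hg0 : 0 ≤ g)
    (hg1 : g ≤ 1) : W.occ N σ0 ((W.P ^ j) g) ≤ W.occ N σ0 g + j := by
  unfold Walk.occ
  have h1 : ∑ t ∈ range N, (W.P ^ t) ((W.P ^ j) g) σ0 = ∑ t ∈ range N, (W.P ^ (j + t)) g σ0 :=
    sum_congr rfl fun t _ => by rw [W.Pj_Pj, add_comm]
  rw [h1]
  have h2 : ∑ t ∈ range N, (W.P ^ (j + t)) g σ0 ≤ ∑ t ∈ range (j + N), (W.P ^ t) g σ0 := by
    rw [sum_range_add]
    have : 0 ≤ ∑ x ∈ range j, (W.P ^ x) g σ0 := sum_nonneg fun t _ => W.Pj_nonneg t hg0 σ0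
    linarith
  have h3 : ∑ t ∈ range (j + N), (W.P ^ t) g σ0 = ∑ t ∈ range N, (W.P ^ t) g σ0 +
      ∑ t ∈ range j, (W.P ^ (N + t)) g σ0 := by
    rw [add_comm j N, sum_range_add]
  have h4 : ∑ t ∈ range j, (W.P ^ (N + t)) g σ0 ≤ j := by
    have := sum_le_sum fun t (_ : t ∈ range j) => W.Pj_le_one (N + t) hg1 σ0
    simpa using this
  linarith

theorem Walk.occ_le_shift (W : Walk f ρ S) (N j : ℕ) (σ0 : S) {g : S → ℝ} (hg0 : 0 ≤ g)
    (hg1 : g ≤ 1) : W.occ N σ0 g ≤ W.occ N σ0 ((W.P ^ j) g) + j := by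
  unfold Walk.occ
  have h1 : ∑ t ∈ range N, (W.P ^ t) ((W.P ^ j) g) σ0 = ∑ t ∈ range N, (W.P ^ (j + t)) g σ0 :=
    sum_congr rfl fun t _ => by rw [W.Pj_Pj, add_comm]
  rw [h1]
  have h2 : ∑ t ∈ range N, (W.P ^ t) g σ0 ≤ ∑ t ∈ range (j + N), (W.P ^ t) g σ0 := by
    apply sum_le_sum_of_subset_of_nonneg
    · intro t ht
      rw [mem_range] at ht ⊢
      omega
    · intro t _ _
      exact W.Pj_nonneg t hg0 σ0
  rw [sum_range_add] at h2
  have h4 : ∑ t ∈ range j, (W.P ^ t) g σ0 ≤ j := by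
    have := sum_le_sum fun t (_ : t ∈ range j) => W.Pj_le_one t hg1 σ0
    simpa using this
  linarith

/-- the walk increases `f` -/
theorem Walk.Pj_zero_of (W : Walk f ρ S) (j : ℕ) (a : ℝ) {g : S → ℝ}
    (hg : ∀ σ, a ≤ f (W.X σ) → g σ = 0) : ∀ σ, a ≤ f (W.X σ) → (W.P ^ j) g σ = 0 := by
  induction j generalizing g with
  | zero => simpa using hg
  | succ j ih =>
    rw [pow_succ, Module.End.mul_apply]
    apply ih
    intro σ hσ
    rw [W.P_apply]
    apply sum_eq_zero
    intro i hi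
    rw [hg _ _, mul_zero]
    rw [W.hX σ i hi]
    exact hσ.trans (mem_improving.1 hi).le

/-- a vertex is jumped over at most `j` times by steps of length `j` -/
theorem Walk.crossing (W : Walk f ρ S) (N j : ℕ) (σ0 : S) (a : ℝ) :
    W.occ N σ0 (fun σ => if f (W.X σ) < a then (W.P ^ j) (fun σ' => if a ≤ f (W.X σ') then 1 else 0) σ
      else 0) ≤ j := by
  set g : S → ℝ := fun σ => if f (W.X σ) < a then 1 else 0 with hg
  have hg0 : 0 ≤ g := by
    intro σ; show (0 : ℝ) ≤ if f (W.X σ) < a then 1 else 0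
    split_ifs <;> norm_num
  have hg1 : g ≤ 1 := by
    intro σ; show (if f (W.X σ) < a then (1 : ℝ) else 0) ≤ 1
    split_ifs <;> norm_num
  have h1 : (fun σ => if f (W.X σ) < a then (W.P ^ j) (fun σ' => if a ≤ f (W.X σ') then 1 else 0) σ
      else 0) + (W.P ^ j) g ≤ g := by
    intro σ
    rw [Pi.add_apply]
    by_cases h : f (W.X σ) < a
    · have e : (fun σ' => if a ≤ f (W.X σ') then (1 : ℝ) else 0) + g = 1 := by
        funext σ'
        rw [Pi.add_apply, hg]
        by_cases h' : f (W.X σ') < a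
        · simp [h', not_le.2 h']
        · simp [h', not_lt.1 h']
      have h2 : (W.P ^ j) ((fun σ' => if a ≤ f (W.X σ') then (1 : ℝ) else 0) + g) σ ≤ 1 := by
        rw [e]; exact W.Pj_one j σ
      rw [map_add, Pi.add_apply] at h2
      have h3 : g σ = 1 := by rw [hg]; simp [h]
      rw [h3]
      simp only [if_pos h]
      exact h2
    · have h2 := W.Pj_zero_of j a (g := g) (fun σ' h' => by rw [hg]; simp [not_lt.2 h']) σ (not_lt.1 h)
      rw [h2]
      have h3 : g σ = 0 := by rw [hg]; simp [h]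
      rw [h3]
      simp only [if_neg h]
      norm_num
  have h2 := W.occ_mono N σ0 h1
  rw [W.occ_add] at h2
  have h3 := W.occ_le_shift N j σ0 hg0 hg1
  linarith

/-- each vertex is visited at most once -/
theorem Walk.occ_ind (W : Walk f ρ S) (N : ℕ) (σ0 : S) (v : Fin n → Bool) :
    W.occ N σ0 (W.ind v) ≤ 1 := by
  set g : S → ℝ := fun σ => if f (W.X σ) ≤ f v then 1 else 0 with hg
  have hg0 : 0 ≤ g := by
    intro σ; show (0 : ℝ) ≤ if f (W.X σ) ≤ f v then 1 else 0
    split_ifs <;> norm_num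
  have hg1 : g ≤ 1 := by
    intro σ; show (if f (W.X σ) ≤ f v then (1 : ℝ) else 0) ≤ 1
    split_ifs <;> norm_num
  have h1 : W.ind v + (W.P ^ 1) g ≤ g := by
    intro σ
    rw [Pi.add_apply, pow_one]
    by_cases h : W.X σ = v
    · have h2 : W.P g σ = 0 := by
        rw [W.P_apply]
        apply sum_eq_zero
        intro i hi
        have h3 := mem_improving.1 hi
        rw [hg]
        simp only [W.hX σ i hi]
        rw [h] at h3 ⊢
        rw [if_neg (not_le.2 h3), mul_zero]
      rw [h2]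
      simp [Walk.ind, hg, h]
    · have e : W.ind v σ = 0 := by simp [Walk.ind, h]
      rw [e, zero_add]
      by_cases h' : f (W.X σ) ≤ f v
      · have h3 : g σ = 1 := by rw [hg]; simp [h']
        rw [h3]
        have := W.Pj_le_one 1 hg1 σ
        simpa using this
      · have h2 : W.P g σ = 0 := by
          rw [W.P_apply]
          apply sum_eq_zero
          intro i hi
          have h3 := mem_improving.1 hi
          rw [hg]
          simp only [W.hX σ i hi]
          rw [if_neg (not_le.2 (lt_trans (not_le.1 h') h3)), mul_zero]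
        rw [h2]
        exact hg0 σ
  have h2 := W.occ_mono N σ0 h1
  rw [W.occ_add] at h2
  have h3 := W.occ_le_shift N 1 σ0 hg0 hg1
  push_cast at h3
  linarith

/-- the indicator function of `X ∈ L` -/
noncomputable def Walk.indL (W : Walk f ρ S) (L : Finset (Fin n → Bool)) : S → ℝ :=
  ∑ v ∈ L, W.ind v

theorem Walk.indL_apply (W : Walk f ρ S) (L : Finset (Fin n → Bool)) (σ : S) :
    W.indL L σ = if W.X σ ∈ L then 1 else 0 := by
  unfold Walk.indL
  rw [Finset.sum_apply]
  simp [Walk.ind]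

theorem Walk.indL_nonneg (W : Walk f ρ S) (L : Finset (Fin n → Bool)) : 0 ≤ W.indL L := by
  intro σ
  rw [W.indL_apply]
  show (0 : ℝ) ≤ _
  split_ifs <;> norm_num

theorem Walk.indL_le_one (W : Walk f ρ S) (L : Finset (Fin n → Bool)) : W.indL L ≤ 1 := by
  intro σ
  rw [W.indL_apply]
  show _ ≤ (1 : ℝ)
  split_ifs <;> norm_num

theorem Walk.occ_indL (W : Walk f ρ S) (N : ℕ) (σ0 : S) (L : Finset (Fin n → Bool)) :
    W.occ N σ0 (W.indL L) ≤ L.card := by
  unfold Walk.indL
  rw [W.occ_sum]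
  have := sum_le_sum fun v (_ : v ∈ L) => W.occ_ind N σ0 v
  simpa using this

/-- the vertices of low degree -/
noncomputable def low (f : (Fin n → Bool) → ℝ) (l : ℕ) : Finset (Fin n → Bool) :=
  univ.filter fun v => (improving f v).card < l

/-- either the walk stays at high degrees or it visits a vertex of low degree -/
theorem Walk.Pj_le (W : Walk f ρ S) (l j : ℕ) {g : S → ℝ} (hg1 : g ≤ 1) :
    (W.P ^ j) g ≤ (W.PR l ^ j) g + ∑ i ∈ range j, (W.P ^ i) (W.indL (low f l)) := by
  induction j with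
  | zero => simp
  | succ j ih =>
    intro σ
    rw [pow_succ', Module.End.mul_apply, pow_succ', Module.End.mul_apply, Pi.add_apply]
    have hs : 0 ≤ ∑ i ∈ range (j + 1), (W.P ^ i) (W.indL (low f l)) :=
      sum_nonneg fun i _ => W.Pj_nonneg i (W.indL_nonneg _)
    by_cases h : l ≤ (improving f (W.X σ)).card
    · have h1 := W.P_mono ih σ
      rw [map_add, Pi.add_apply, map_sum] at h1
      have h2 : W.PR l ((W.PR l ^ j) g) σ = W.P ((W.PR l ^ j) g) σ := by
        rw [W.PR_apply, if_pos h]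
      rw [h2]
      refine h1.trans ?_
      have h3 : ∑ i ∈ range j, W.P ((W.P ^ i) (W.indL (low f l))) =
          ∑ i ∈ range j, (W.P ^ (i + 1)) (W.indL (low f l)) :=
        sum_congr rfl fun i _ => by rw [pow_succ', Module.End.mul_apply]
      rw [h3, sum_range_succ' (fun i => (W.P ^ i) (W.indL (low f l))) j, Pi.add_apply]
      have h4 : 0 ≤ (W.P ^ 0) (W.indL (low f l)) σ := W.Pj_nonneg 0 (W.indL_nonneg _) σ
      linarith
    · have h1 : W.P ((W.P ^ j) g) σ ≤ 1 := by
        have := W.Pj_le_one (j + 1) hg1 σ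
        rwa [pow_succ', Module.End.mul_apply] at this
      have h2 : W.PR l ((W.PR l ^ j) g) σ = 0 := by
        rw [W.PR_apply, if_neg h]
      have h3 : (1 : ℝ) ≤ (∑ i ∈ range (j + 1), (W.P ^ i) (W.indL (low f l))) σ := by
        rw [Finset.sum_apply]
        have h4 : (W.P ^ 0) (W.indL (low f l)) σ = 1 := by
          rw [pow_zero, Module.End.one_apply, W.indL_apply, if_pos]
          simp [low, not_le.1 h]
        rw [← h4]
        exact single_le_sum (f := fun i => (W.P ^ i) (W.indL (low f l)) σ)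
          (fun i _ => W.Pj_nonneg i (W.indL_nonneg _) σ) (mem_range.2 (Nat.succ_pos j))
      linarith

/-- the number of vertices of `L` which are skipped by a jump from `x` to `w` -/
noncomputable def skip (f : (Fin n → Bool) → ℝ) (L : Finset (Fin n → Bool)) (x w : Fin n → Bool) :
    ℕ := (L.filter fun z => f x < f z ∧ f z ≤ f w).card

theorem card_skip_lt (hf : Function.Injective f) (L : Finset (Fin n → Bool)) (x : Fin n → Bool)
    (N1 : ℕ) : (L.filter fun w => f x ≤ f w ∧ skip f L x w < N1).card ≤ N1 := by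
  have h : Set.InjOn (skip f L x) (L.filter fun w => f x ≤ f w ∧ skip f L x w < N1) := by
    intro w hw w' hw' he
    rw [mem_coe, mem_filter] at hw hw'
    by_contra hne
    have key : ∀ a b : Fin n → Bool, b ∈ L → f x ≤ f a → f a < f b →
        skip f L x a < skip f L x b := by
      intro a b hb hxa hab
      apply card_lt_card
      rw [ssubset_iff_of_subset]
      · refine ⟨b, ?_, ?_⟩
        · rw [mem_filter]
          exact ⟨hb, lt_of_le_of_lt hxa hab, le_rfl⟩
        · rw [mem_filter]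
          rintro ⟨-, -, h3⟩
          exact absurd hab (not_lt.2 h3)
      · intro z hz
        rw [mem_filter] at hz ⊢
        exact ⟨hz.1, hz.2.1, hz.2.2.trans hab.le⟩
    rcases lt_or_gt_of_ne (fun e => hne (hf e) : f w ≠ f w') with h1 | h1
    · exact absurd he (key w w' hw'.1 hw.2.1 h1).ne
    · exact absurd he.symm (key w' w hw.1 hw'.2.1 h1).ne
  have h2 := card_le_card_of_injOn (t := range N1) (skip f L x) (fun w hw => by
    rw [mem_coe, mem_filter] at hw
    simpa using hw.2.2) h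
  simpa using h2

/-- a spread out law skips many vertices -/
theorem skip_ge (hf : Function.Injective f) (L : Finset (Fin n → Bool)) (x : Fin n → Bool)
    (ν : (Fin n → Bool) → ℝ) (hν : ∀ v, 0 ≤ ν v) (hsupp : ∀ v, ¬ f x ≤ f v → ν v = 0)
    {s t Q δ : ℝ} (hs : 0 < s) (ht : 0 < t) (N1 : ℕ) (hQ : ∑ v, ν v ^ (1 + s) ≤ Q)
    (hδ : N1 * t + Q / t ^ s ≤ δ) :
    N1 * (∑ w ∈ L, ν w - δ) ≤ ∑ w ∈ L, ν w * skip f L x w := by
  classical
  have h1 : ∑ w ∈ L.filter (fun w => f x ≤ f w ∧ skip f L x w < N1), ν w ≤ δ := by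
    refine le_trans ?_ hδ
    have hp : ∀ v, ν v ≤ t + ν v ^ (1 + s) / t ^ s := by
      intro v
      rcases le_total (ν v) t with h | h
      · have : 0 ≤ ν v ^ (1 + s) / t ^ s := by
          have := hν v
          positivity
        linarith
      · have hv : 0 < ν v := lt_of_lt_of_le ht h
        have h2 : ν v ≤ ν v ^ (1 + s) / t ^ s := by
          rw [le_div_iff₀ (by positivity), Real.rpow_add hv, Real.rpow_one]
          exact mul_le_mul_of_nonneg_left (Real.rpow_le_rpow ht.le h hs.le) hv.le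
        linarith
    have h2 := sum_le_sum fun v (_ : v ∈ L.filter (fun w => f x ≤ f w ∧ skip f L x w < N1)) => hp v
    refine h2.trans ?_
    rw [sum_add_distrib, sum_const, nsmul_eq_mul, ← sum_div]
    apply add_le_add
    · apply mul_le_mul_of_nonneg_right _ ht.le
      exact_mod_cast card_skip_lt hf L x N1
    · apply div_le_div_of_nonneg_right _ (by positivity)
      refine le_trans ?_ hQ
      exact sum_le_univ_sum_of_nonneg fun v => Real.rpow_nonneg (hν v) _
  have h2 : ∀ w ∈ L, N1 * (ν w - if f x ≤ f w ∧ skip f L x w < N1 then ν w else 0) ≤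
      ν w * skip f L x w := by
    intro w _
    by_cases h : f x ≤ f w ∧ skip f L x w < N1
    · rw [if_pos h, sub_self, mul_zero]
      have := hν w
      positivity
    · rw [if_neg h, sub_zero]
      by_cases h3 : f x ≤ f w
      · have h4 : N1 ≤ skip f L x w := by
          by_contra h5
          exact h ⟨h3, not_le.1 h5⟩
        rw [mul_comm]
        apply mul_le_mul_of_nonneg_left _ (hν w)
        exact_mod_cast h4
      · rw [hsupp w h3]; simp
  have h3 := sum_le_sum h2
  rw [← mul_sum, sum_sub_distrib, ← sum_filter] at h3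
  refine le_trans ?_ h3
  apply mul_le_mul_of_nonneg_left _ (Nat.cast_nonneg _)
  linarith

end Pool.Agent.H80.RE
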