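import Pool.Agent.H80.RE.Chain
set_option autoImplicit false

/-!
# The law of the walk in a window
-/

namespace Pool.Agent.H80.RE

open Finset Real

variable {n : ℕ} {f : (Fin n → Bool) → ℝ} {ρ : ℝ} {S : Type}

/-- the normalising constant -/
noncomputable def c0 (K : ℕ) (lam : ℝ) : ℝ := (∑ j ∈ range K, lam ^ j)⁻¹

theorem c0_pos {K : ℕ} (hK : 0 < K) {lam : ℝ} (hlam : 0 < lam) : 0 < c0 K lam := by
  unfold c0
  apply inv_pos.2
  exact sum_pos (fun j _ => pow_pos hlam j) ⟨0, mem_range.2 hK⟩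

theorem c0_mul {K : ℕ} (hK : 0 < K) {lam : ℝ} (hlam : 0 < lam) :
    c0 K lam * ∑ j ∈ range K, lam ^ j = 1 := by
  unfold c0
  apply inv_mul_cancel₀
  exact (sum_pos (fun j _ => pow_pos hlam j) ⟨0, mem_range.2 hK⟩).ne'

/-- a convex combination of bounded quantities is bounded -/
theorem c0_avg_le {K : ℕ} (hK : 0 < K) {lam : ℝ} (hlam : 0 < lam) (a : ℕ → ℝ) {A : ℝ}
    (ha : ∀ j, j < K → a j ≤ A) : c0 K lam * ∑ j ∈ range K, lam ^ j * a j ≤ A := by
  have h1 : ∑ j ∈ range K, lam ^ j * a j ≤ (∑ j ∈ range K, lam ^ j) * A := by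
    rw [sum_mul]
    exact sum_le_sum fun j hj => mul_le_mul_of_nonneg_left (ha j (mem_range.1 hj))
      (pow_pos hlam j).le
  have h2 := mul_le_mul_of_nonneg_left h1 (c0_pos hK hlam).le
  rw [← mul_assoc, c0_mul hK hlam, one_mul] at h2
  exact h2

/-- the law of the killed walk at a random time -/
noncomputable def Walk.nu (W : Walk f ρ S) (l K : ℕ) (lam : ℝ) (σ : S) (v : Fin n → Bool) : ℝ :=
  if l ≤ (improving f v).card then c0 K lam * ∑ j ∈ range K, lam ^ j * W.pi l j σ v else 0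

/-- the flow at a random time -/
noncomputable def Walk.FF (W : Walk f ρ S) (l K : ℕ) (lam : ℝ) (σ : S) (v : Fin n → Bool)
    (i : Fin n) : ℝ :=
  if l ≤ (improving f v).card then c0 K lam * ∑ j ∈ range K, lam ^ j * W.Fl l j σ v i else 0

theorem Walk.nu_nonneg (W : Walk f ρ S) {l K : ℕ} (hK : 0 < K) {lam : ℝ} (hlam : 0 < lam) (σ : S)
    (v : Fin n → Bool) : 0 ≤ W.nu l K lam σ v := by
  unfold Walk.nu
  split_ifs
  · exact mul_nonneg (c0_pos hK hlam).le (sum_nonneg fun j _ => mul_nonneg (pow_pos hlam j).le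
      (W.pi_nonneg _ _ _ _))
  · exact le_rfl

theorem Walk.FF_nonneg (W : Walk f ρ S) {l K : ℕ} (hK : 0 < K) {lam : ℝ} (hlam : 0 < lam) (σ : S)
    (v : Fin n → Bool) (i : Fin n) : 0 ≤ W.FF l K lam σ v i := by
  unfold Walk.FF
  split_ifs
  · exact mul_nonneg (c0_pos hK hlam).le (sum_nonneg fun j _ => mul_nonneg (pow_pos hlam j).le
      (W.Fl_nonneg _ _ _ _ _))
  · exact le_rfl

theorem Walk.sum_nu (W : Walk f ρ S) {l K : ℕ} (hK : 0 < K) {lam : ℝ} (hlam : 0 < lam) (σ : S) :
    ∑ v, W.nu l K lam σ v ≤ 1 := by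
  have h1 : ∑ v, W.nu l K lam σ v ≤ ∑ v, c0 K lam * ∑ j ∈ range K, lam ^ j * W.pi l j σ v := by
    refine sum_le_sum fun v _ => ?_
    unfold Walk.nu
    split_ifs
    · exact le_rfl
    · exact mul_nonneg (c0_pos hK hlam).le (sum_nonneg fun j _ => mul_nonneg (pow_pos hlam j).le
        (W.pi_nonneg _ _ _ _))
  refine h1.trans ?_
  rw [← mul_sum, sum_comm]
  simp only [← mul_sum]
  exact c0_avg_le hK hlam _ fun j _ => W.sum_pi l j σ

theorem Walk.FF_le (W : Walk f ρ S) {l K : ℕ} (hK : 0 < K) {lam : ℝ} (hlam : 0 < lam) (σ : S)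
    (v : Fin n → Bool) (i : Fin n) (hi : i ∈ improving f v) :
    W.FF l K lam σ v i * l ≤ ρ * W.nu l K lam σ v := by
  unfold Walk.FF Walk.nu
  split_ifs with h
  · have h1 : ∀ j, lam ^ j * W.Fl l j σ v i * l ≤ ρ * (lam ^ j * W.pi l j σ v) := by
      intro j
      have := mul_le_mul_of_nonneg_left (W.Fl_le l j σ v i hi h) (pow_pos hlam j).le
      linarith
    have h2 := sum_le_sum fun j (_ : j ∈ range K) => h1 j
    rw [← sum_mul, ← mul_sum] at h2
    have h3 := mul_le_mul_of_nonneg_left h2 (c0_pos hK hlam).le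
    linarith
  · simp

theorem Walk.sum_FF (W : Walk f ρ S) {l K : ℕ} (hK : 0 < K) {lam : ℝ} (hlam : 0 < lam) (σ : S)
    (v : Fin n → Bool) : ∑ i ∈ improving f v, W.FF l K lam σ v i ≤ W.nu l K lam σ v := by
  unfold Walk.FF Walk.nu
  split_ifs with h
  · rw [← mul_sum, sum_comm]
    simp only [← mul_sum]
    apply mul_le_mul_of_nonneg_left _ (c0_pos hK hlam).le
    exact sum_le_sum fun j _ => mul_le_mul_of_nonneg_left (W.sum_Fl l j σ v) (pow_pos hlam j).le
  · simp

theorem Walk.pi_zero_le (W : Walk f ρ S) (l : ℕ) (σ : S) (v : Fin n → Bool) :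
    W.pi l 0 σ v = if v = W.X σ then 1 else 0 := by
  unfold Walk.pi
  rw [pow_zero, Module.End.one_apply]
  unfold Walk.ind
  by_cases h : W.X σ = v
  · rw [if_pos h, if_pos h.symm]
  · rw [if_neg h, if_neg fun e => h e.symm]

theorem Walk.nu_sub (hf : Function.Injective f) (W : Walk f ρ S) {l K : ℕ} (hK : 0 < K) {lam : ℝ}
    (hlam : 0 < lam) (σ : S) (v : Fin n → Bool) :
    W.nu l K lam σ v ≤ lam * ∑ i ∈ (improving f v)ᶜ, W.FF l K lam σ (flip v i) i +
      if v = W.X σ then c0 K lam else 0 := by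
  have hc := c0_pos hK hlam
  have hR : 0 ≤ lam * ∑ i ∈ (improving f v)ᶜ, W.FF l K lam σ (flip v i) i :=
    mul_nonneg hlam.le (sum_nonneg fun i _ => W.FF_nonneg hK hlam _ _ _)
  have hI : (0 : ℝ) ≤ if v = W.X σ then c0 K lam else 0 := by
    split_ifs
    · exact hc.le
    · exact le_rfl
  rw [Walk.nu]
  split_ifs with h h2 h2
  · -- v = X σ
    have key : ∑ j ∈ range K, lam ^ j * W.pi l j σ v ≤
        ∑ j ∈ range K, lam ^ (j + 1) * W.pi l (j + 1) σ v + 1 := by
      have h3 : ∑ j ∈ range K, lam ^ j * W.pi l j σ v ≤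
          ∑ j ∈ range (K + 1), lam ^ j * W.pi l j σ v := by
        rw [sum_range_succ]
        have := mul_nonneg (pow_pos hlam K).le (W.pi_nonneg l K σ v)
        linarith
      rw [sum_range_succ'] at h3
      rw [W.pi_zero_le, if_pos h2] at h3
      simpa using h3
    have h4 : ∑ j ∈ range K, lam ^ (j + 1) * W.pi l (j + 1) σ v = lam * ∑ i ∈ (improving f v)ᶜ,
        (if l ≤ (improving f (flip v i)).card then
          ∑ j ∈ range K, lam ^ j * W.Fl l j σ (flip v i) i else 0) := by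
      rw [mul_sum]
      have : ∀ j, lam ^ (j + 1) * W.pi l (j + 1) σ v = ∑ i ∈ (improving f v)ᶜ,
          lam * (if l ≤ (improving f (flip v i)).card then lam ^ j * W.Fl l j σ (flip v i) i else 0) := by
        intro j
        rw [W.pi_succ hf, mul_sum]
        refine sum_congr rfl fun i _ => ?_
        split_ifs
        · ring
        · ring
      simp only [this]
      rw [sum_comm]
      refine sum_congr rfl fun i _ => ?_
      rw [← mul_sum]
      congr 1
      split_ifs
      · rfl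
      · simp
    have h5 : ∑ i ∈ (improving f v)ᶜ, W.FF l K lam σ (flip v i) i = c0 K lam *
        ∑ i ∈ (improving f v)ᶜ, (if l ≤ (improving f (flip v i)).card then
          ∑ j ∈ range K, lam ^ j * W.Fl l j σ (flip v i) i else 0) := by
      rw [mul_sum]
      refine sum_congr rfl fun i _ => ?_
      unfold Walk.FF
      split_ifs
      · rfl
      · simp
    rw [h5]
    rw [h4] at key
    have h6 := mul_le_mul_of_nonneg_left key hc.le
    linarith
  · have key : ∑ j ∈ range K, lam ^ j * W.pi l j σ v ≤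
        ∑ j ∈ range K, lam ^ (j + 1) * W.pi l (j + 1) σ v := by
      have h3 : ∑ j ∈ range K, lam ^ j * W.pi l j σ v ≤
          ∑ j ∈ range (K + 1), lam ^ j * W.pi l j σ v := by
        rw [sum_range_succ]
        have := mul_nonneg (pow_pos hlam K).le (W.pi_nonneg l K σ v)
        linarith
      rw [sum_range_succ'] at h3
      rw [W.pi_zero_le, if_neg h2] at h3
      simpa using h3
    have h4 : ∑ j ∈ range K, lam ^ (j + 1) * W.pi l (j + 1) σ v = lam * ∑ i ∈ (improving f v)ᶜ,
        (if l ≤ (improving f (flip v i)).card then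
          ∑ j ∈ range K, lam ^ j * W.Fl l j σ (flip v i) i else 0) := by
      rw [mul_sum]
      have : ∀ j, lam ^ (j + 1) * W.pi l (j + 1) σ v = ∑ i ∈ (improving f v)ᶜ,
          lam * (if l ≤ (improving f (flip v i)).card then lam ^ j * W.Fl l j σ (flip v i) i else 0) := by
        intro j
        rw [W.pi_succ hf, mul_sum]
        refine sum_congr rfl fun i _ => ?_
        split_ifs
        · ring
        · ring
      simp only [this]
      rw [sum_comm]
      refine sum_congr rfl fun i _ => ?_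
      rw [← mul_sum]
      congr 1
      split_ifs
      · rfl
      · simp
    have h5 : ∑ i ∈ (improving f v)ᶜ, W.FF l K lam σ (flip v i) i = c0 K lam *
        ∑ i ∈ (improving f v)ᶜ, (if l ≤ (improving f (flip v i)).card then
          ∑ j ∈ range K, lam ^ j * W.Fl l j σ (flip v i) i else 0) := by
      rw [mul_sum]
      refine sum_congr rfl fun i _ => ?_
      unfold Walk.FF
      split_ifs
      · rfl
      · simp
    rw [h5]
    rw [h4] at key
    have h6 := mul_le_mul_of_nonneg_left key hc.le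
    linarith
  · linarith
  · linarith

/-- the exponent -/
noncomputable def expo (n : ℕ) (l ρ lam s τ ε : ℝ) : ℝ :=
  s * ((l / ρ) * (2 * log 2 - (1 + s) * log 2 * s * τ ^ 2 -
      (1 + s) * log 2 / s * (1 - (1 - ε) / lam)) - (1 + s) * log 2 / s * exp (-τ) * n)

/-- **The walk is spread out at the end of a window.** -/
theorem Walk.nu_spread (hf : Function.Injective f) (W : Walk f ρ S) {l K : ℕ} {lam s τ ε : ℝ}
    (hs : 0 < s) (hs9 : s ≤ 1 / 9) (hτ : 3 ≤ τ) (hsτ : s * τ ≤ 1) (hl : 0 < l) (hρ : 0 < ρ)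
    (hlam : 0 < lam) (hK : 0 < K) (hε : 0 < ε) (σ : S) :
    ∑ v, W.nu l K lam σ v ^ (1 + s) ≤ max (c0 K lam / ε) (exp (- expo n l ρ lam s τ ε)) := by
  by_cases h : c0 K lam ≤ ε * ∑ v, W.nu l K lam σ v ^ (1 + s)
  · refine le_trans ?_ (le_max_right _ _)
    have h1 := spread hf (W.nu l K lam σ) (W.FF l K lam σ) (W.X σ) hs hs9 hτ hsτ
      (l := (l : ℝ)) (by exact_mod_cast hl) hρ hlam (c0_pos hK hlam).le
      (fun v => W.nu_nonneg hK hlam σ v) (W.sum_nu hK hlam σ)
      (fun v i => W.FF_nonneg hK hlam σ v i) (fun v i hi => W.FF_le hK hlam σ v i hi)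
      (fun v => W.sum_FF hK hlam σ v) (fun v => W.nu_sub hf hK hlam σ v) h
    refine h1.trans (le_of_eq ?_)
    unfold expo
    congr 1
    ring
  · refine le_trans ?_ (le_max_left _ _)
    rw [le_div_iff₀ hε]
    linarith

end Pool.Agent.H80.RE
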